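import Mathlib

/-! Chebyshev and Mertens type bounds for the module [SB] (helper22). -/

set_option autoImplicit false

open Finset Real
open scoped ArithmeticFunction.vonMangoldt

namespace Pool.Agent.H22.MR

theorem log4_le : Real.log 4 + 4 ≤ 6 := by
  have h : Real.log 4 ≤ 2 := by
    have h1 := Real.log_le_sub_one_of_pos (by norm_num : (0 : ℝ) < 4)
    have h2 : Real.log 4 = 2 * Real.log 2 := by
      rw [show (4 : ℝ) = 2 ^ 2 by norm_num, Real.log_pow]; norm_num
    have h3 := Real.log_two_lt_d9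
    linarith
  linarith

theorem exp1_lt3 : Real.exp 1 < 3 := by
  have := Real.exp_one_lt_d9
  linarith

theorem exp1_gt2 : 2 < Real.exp 1 := by
  have := Real.exp_one_gt_d9
  linarith

/-- Chebyshev -/
theorem psi_bound (x : ℝ) (hx : 0 ≤ x) : ∑ n ∈ Icc 1 ⌊x⌋₊, Λ n ≤ 6 * x := by
  have h := Chebyshev.psi_le_const_mul_self hx
  have h2 : Chebyshev.psi x = ∑ n ∈ Icc 1 ⌊x⌋₊, Λ n := by
    unfold Chebyshev.psi
    rfl
  rw [← h2]
  exact h.trans (mul_le_mul_of_nonneg_right log4_le hx)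

theorem log_sum_eq (n : ℕ) :
    ∑ k ∈ Icc 1 n, Real.log k = ∑ d ∈ Icc 1 n, Λ d * ((n / d : ℕ) : ℝ) := by
  have h1 : ∀ k ∈ Icc 1 n, Real.log k = ∑ d ∈ Icc 1 n, if d ∣ k then Λ d else 0 := by
    intro k hk
    rw [mem_Icc] at hk
    rw [← ArithmeticFunction.vonMangoldt_sum, ← Finset.sum_filter]
    apply Finset.sum_congr _ (fun _ _ => rfl)
    ext d
    simp only [Nat.mem_divisors, mem_filter, mem_Icc]
    constructor
    · rintro ⟨h1, h2⟩
      exact ⟨⟨Nat.pos_of_dvd_of_pos h1 (by omega), (Nat.le_of_dvd (by omega) h1).trans hk.2⟩, h1⟩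
    · rintro ⟨_, h2⟩
      exact ⟨h2, by omega⟩
  rw [Finset.sum_congr rfl h1, Finset.sum_comm]
  apply Finset.sum_congr rfl
  intro d hd
  rw [← Finset.sum_filter, Finset.sum_const, nsmul_eq_mul, mul_comm]
  congr 2
  have := Nat.Ioc_filter_dvd_card_eq_div n d
  rw [← this]
  rfl

theorem log_fact_le (n : ℕ) : ∑ k ∈ Icc 1 n, Real.log k ≤ n * Real.log n := by
  calc ∑ k ∈ Icc 1 n, Real.log k ≤ ∑ k ∈ Icc 1 n, Real.log n := by
        apply Finset.sum_le_sum
        intro k hk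
        rw [mem_Icc] at hk
        apply Real.log_le_log (by exact_mod_cast hk.1)
        exact_mod_cast hk.2
    _ = n * Real.log n := by simp

theorem log_fact_ge (n : ℕ) : n * Real.log n - n ≤ ∑ k ∈ Icc 1 n, Real.log k := by
  induction n with
  | zero => simp
  | succ n ih =>
    rw [Finset.sum_Icc_succ_top (by omega)]
    rcases Nat.eq_zero_or_pos n with h | h
    · subst h; simp
    · have hn : (0 : ℝ) < n := by exact_mod_cast h
      have h1 : Real.log ((n : ℝ) + 1) - Real.log n ≤ 1 / n := by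
        rw [← Real.log_div (by positivity) hn.ne']
        have := Real.log_le_sub_one_of_pos (show 0 < ((n : ℝ) + 1) / n by positivity)
        have e : ((n : ℝ) + 1) / n - 1 = 1 / n := by field_simp; ring
        linarith
      have h2 : (n : ℝ) * (Real.log ((n : ℝ) + 1) - Real.log n) ≤ 1 := by
        calc (n : ℝ) * (Real.log ((n : ℝ) + 1) - Real.log n) ≤ n * (1 / n) :=
              mul_le_mul_of_nonneg_left h1 hn.le
          _ = 1 := by field_simp
      push_cast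
      nlinarith

/-- Mertens, upper bound -/
theorem mertens_le {n : ℕ} (hn : 1 ≤ n) : ∑ d ∈ Icc 1 n, Λ d / d ≤ Real.log n + 6 := by
  have hn0 : (0 : ℝ) < n := by exact_mod_cast hn
  have h1 : (n : ℝ) * ∑ d ∈ Icc 1 n, Λ d / d ≤ n * (Real.log n + 6) := by
    calc (n : ℝ) * ∑ d ∈ Icc 1 n, Λ d / d = ∑ d ∈ Icc 1 n, Λ d * ((n : ℝ) / d) := by
          rw [Finset.mul_sum]
          apply Finset.sum_congr rfl
          intro d _
          ring
      _ ≤ ∑ d ∈ Icc 1 n, (Λ d * ((n / d : ℕ) : ℝ) + Λ d) := by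
          apply Finset.sum_le_sum
          intro d hd
          rw [mem_Icc] at hd
          have h2 : (n : ℝ) / d ≤ ((n / d : ℕ) : ℝ) + 1 := by
            rw [div_le_iff₀ (by exact_mod_cast hd.1)]
            have := Nat.lt_div_mul_add (a := n) (b := d) (by omega)
            have h3 : n ≤ (n / d + 1) * d := by nlinarith
            exact_mod_cast h3
          nlinarith [ArithmeticFunction.vonMangoldt_nonneg (n := d)]
      _ = ∑ k ∈ Icc 1 n, Real.log k + ∑ d ∈ Icc 1 n, Λ d := by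
          rw [Finset.sum_add_distrib, log_sum_eq]
      _ ≤ n * Real.log n + 6 * n := by
          have h3 := log_fact_le n
          have h4 := psi_bound n hn0.le
          rw [Nat.floor_natCast] at h4
          linarith
      _ = n * (Real.log n + 6) := by ring
  exact le_of_mul_le_mul_left h1 hn0

/-- Mertens, lower bound -/
theorem mertens_ge {n : ℕ} (hn : 1 ≤ n) : Real.log n - 1 ≤ ∑ d ∈ Icc 1 n, Λ d / d := by
  have hn0 : (0 : ℝ) < n := by exact_mod_cast hn
  have h1 : n * (Real.log n - 1) ≤ (n : ℝ) * ∑ d ∈ Icc 1 n, Λ d / d := by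
    calc n * (Real.log n - 1) = n * Real.log n - n := by ring
      _ ≤ ∑ k ∈ Icc 1 n, Real.log k := log_fact_ge n
      _ = ∑ d ∈ Icc 1 n, Λ d * ((n / d : ℕ) : ℝ) := log_sum_eq n
      _ ≤ ∑ d ∈ Icc 1 n, Λ d * ((n : ℝ) / d) := by
          apply Finset.sum_le_sum
          intro d hd
          exact mul_le_mul_of_nonneg_left Nat.cast_div_le ArithmeticFunction.vonMangoldt_nonneg
      _ = (n : ℝ) * ∑ d ∈ Icc 1 n, Λ d / d := by
          rw [Finset.mul_sum]
          apply Finset.sum_congr rfl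
          intro d _
          ring
  exact le_of_mul_le_mul_left h1 hn0

theorem mertens_le_real {x : ℝ} (hx : 1 ≤ x) : ∑ d ∈ Icc 1 ⌊x⌋₊, Λ d / d ≤ Real.log x + 6 := by
  have h1 : 1 ≤ ⌊x⌋₊ := (Nat.one_le_floor_iff x).2 hx
  refine (mertens_le h1).trans ?_
  have : Real.log ⌊x⌋₊ ≤ Real.log x :=
    Real.log_le_log (by exact_mod_cast h1) (Nat.floor_le (by linarith))
  linarith

/-- Mertens in an interval -/
theorem mertens_diff {u x : ℝ} (hu : 1 ≤ u) (hux : u ≤ x) :
    ∑ d ∈ Ioc ⌊u⌋₊ ⌊x⌋₊, Λ d / d ≤ Real.log x - Real.log u + 8 := by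
  have h1 : 1 ≤ ⌊u⌋₊ := (Nat.one_le_floor_iff u).2 hu
  have h2 : ⌊u⌋₊ ≤ ⌊x⌋₊ := Nat.floor_le_floor hux
  have e : ∑ d ∈ Icc 1 ⌊x⌋₊, Λ d / d =
      ∑ d ∈ Icc 1 ⌊u⌋₊, Λ d / d + ∑ d ∈ Ioc ⌊u⌋₊ ⌊x⌋₊, Λ d / d := by
    rw [← Finset.sum_union]
    · congr 1
      ext d
      simp only [mem_Icc, mem_union, mem_Ioc]
      omega
    · rw [Finset.disjoint_left]
      intro d h3 h4
      simp only [mem_Icc, mem_Ioc] at h3 h4
      omega
  have h3 := mertens_le_real (hu.trans hux)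
  have h4 := mertens_ge h1
  have h5 : Real.log u - 1 ≤ Real.log ⌊u⌋₊ := by
    have h6 : u ≤ 2 * ⌊u⌋₊ := by
      have := Nat.lt_floor_add_one u
      have h7 : (1 : ℝ) ≤ ⌊u⌋₊ := by exact_mod_cast h1
      linarith
    have h8 : Real.log u ≤ Real.log (2 * ⌊u⌋₊) := Real.log_le_log (by linarith) h6
    rw [Real.log_mul (by norm_num) (by positivity)] at h8
    have := Real.log_two_lt_d9
    linarith
  linarith

theorem log_mertens_diff {u x : ℝ} (hu : 1 ≤ u) (hux : u ≤ x) :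
    ∑ d ∈ Ioc ⌊u⌋₊ ⌊x⌋₊, Λ d * Real.log d / d ≤ Real.log x * (Real.log x - Real.log u + 8) := by
  calc ∑ d ∈ Ioc ⌊u⌋₊ ⌊x⌋₊, Λ d * Real.log d / d ≤ ∑ d ∈ Ioc ⌊u⌋₊ ⌊x⌋₊, Real.log x * (Λ d / d) := by
        apply Finset.sum_le_sum
        intro d hd
        rw [mem_Ioc] at hd
        have h1 : (d : ℝ) ≤ x := (Nat.le_floor_iff (by linarith)).1 hd.2
        have h2 : (0 : ℝ) < d := by
          have : 0 < d := by omega
          exact_mod_cast this
        have h3 : Real.log d ≤ Real.log x := Real.log_le_log h2 h1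
        have h4 : 0 ≤ Λ d / d := div_nonneg ArithmeticFunction.vonMangoldt_nonneg h2.le
        calc Λ d * Real.log d / d = Real.log d * (Λ d / d) := by ring
          _ ≤ Real.log x * (Λ d / d) := mul_le_mul_of_nonneg_right h3 h4
    _ = Real.log x * ∑ d ∈ Ioc ⌊u⌋₊ ⌊x⌋₊, Λ d / d := by rw [Finset.mul_sum]
    _ ≤ _ := mul_le_mul_of_nonneg_left (mertens_diff hu hux) (Real.log_nonneg (hu.trans hux))

theorem log_mertens {x : ℝ} (hx : 1 ≤ x) :
    ∑ d ∈ Icc 1 ⌊x⌋₊, Λ d * Real.log d / d ≤ 3 / 4 * Real.log x ^ 2 + 11 * Real.log x := by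
  have hs : 1 ≤ √x := by rw [Real.one_le_sqrt]; exact hx
  have hsx : √x ≤ x := by
    rw [Real.sqrt_le_left (by linarith)]; nlinarith
  have hls : Real.log √x = Real.log x / 2 := Real.log_sqrt (by linarith)
  have hlx : 0 ≤ Real.log x := Real.log_nonneg hx
  have e : ∑ d ∈ Icc 1 ⌊x⌋₊, Λ d * Real.log d / d =
      ∑ d ∈ Icc 1 ⌊√x⌋₊, Λ d * Real.log d / d +
      ∑ d ∈ Ioc ⌊√x⌋₊ ⌊x⌋₊, Λ d * Real.log d / d := by
    have h2 : ⌊√x⌋₊ ≤ ⌊x⌋₊ := Nat.floor_le_floor hsx
    rw [← Finset.sum_union]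
    · congr 1
      ext d
      simp only [mem_Icc, mem_union, mem_Ioc]
      omega
    · rw [Finset.disjoint_left]
      intro d h3 h4
      simp only [mem_Icc, mem_Ioc] at h3 h4
      omega
  have h1 : ∑ d ∈ Icc 1 ⌊√x⌋₊, Λ d * Real.log d / d ≤ Real.log √x * (Real.log √x + 6) := by
    calc ∑ d ∈ Icc 1 ⌊√x⌋₊, Λ d * Real.log d / d
        ≤ ∑ d ∈ Icc 1 ⌊√x⌋₊, Real.log √x * (Λ d / d) := by
          apply Finset.sum_le_sum
          intro d hd
          rw [mem_Icc] at hd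
          have h1 : (d : ℝ) ≤ √x := (Nat.le_floor_iff (by linarith)).1 hd.2
          have h2 : (0 : ℝ) < d := by
            have : 0 < d := by omega
            exact_mod_cast this
          have h3 : Real.log d ≤ Real.log √x := Real.log_le_log h2 h1
          have h4 : 0 ≤ Λ d / d := div_nonneg ArithmeticFunction.vonMangoldt_nonneg h2.le
          calc Λ d * Real.log d / d = Real.log d * (Λ d / d) := by ring
            _ ≤ Real.log √x * (Λ d / d) := mul_le_mul_of_nonneg_right h3 h4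
      _ = Real.log √x * ∑ d ∈ Icc 1 ⌊√x⌋₊, Λ d / d := by rw [Finset.mul_sum]
      _ ≤ _ := mul_le_mul_of_nonneg_left (mertens_le_real hs) (Real.log_nonneg hs)
  have h2 := log_mertens_diff hs hsx
  rw [e, hls] at *
  nlinarith

end Pool.Agent.H22.MR
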