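import Pool.Agent.H22.MR.Lfun2

/-! The module [SB]: uniform sup bound (helper22). -/

set_option autoImplicit false

open Finset Real MeasureTheory Filter

namespace Pool.Agent.H22.MR
open Pool.Agent.H24.MR (tent nit lam fW FX StatementBE1 StatementSB)

theorem nit_add (n : ℕ) (t τ : ℝ) : nit n (t + τ) = nit n t * nit n τ := by
  unfold nit
  rw [← Complex.exp_add]
  congr 1
  push_cast
  ring

theorem nit_mul {m n : ℕ} (hm : m ≠ 0) (hn : n ≠ 0) (t : ℝ) : nit (m * n) t = nit m t * nit n t := by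
  unfold nit
  rw [← Complex.exp_add]
  congr 1
  have h1 : Real.log ((m * n : ℕ) : ℝ) = Real.log m + Real.log n := by
    rw [Nat.cast_mul, Real.log_mul (by exact_mod_cast hm) (by exact_mod_cast hn)]
  rw [h1]
  push_cast
  ring

/-- the twisted function -/
noncomputable def ff {W : ℕ} (χ : DirichletCharacter ℂ W) (t : ℝ) (n : ℕ) : ℂ :=
  (lam n : ℂ) * χ n * nit n t

theorem lam_mul {m n : ℕ} (hm : m ≠ 0) (hn : n ≠ 0) : lam (m * n) = lam m * lam n := by
  unfold lam
  rw [ArithmeticFunction.cardFactors_mul hm hn, pow_add]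

theorem lam_abs (n : ℕ) : ‖(lam n : ℂ)‖ = 1 := by
  unfold lam
  rw [Complex.norm_real, norm_pow]
  simp

theorem ff_mul {W : ℕ} (χ : DirichletCharacter ℂ W) (t : ℝ) (m n : ℕ) (hm : m ≠ 0) (hn : n ≠ 0) :
    ff χ t (m * n) = ff χ t m * ff χ t n := by
  unfold ff
  rw [lam_mul hm hn, nit_mul hm hn, Nat.cast_mul, map_mul]
  push_cast
  ring

theorem ff_norm {W : ℕ} (χ : DirichletCharacter ℂ W) (t : ℝ) (n : ℕ) : ‖ff χ t n‖ ≤ 1 := by
  unfold ff
  rw [norm_mul, norm_mul, lam_abs, norm_nit, one_mul, mul_one]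
  exact χ.norm_le_one _

/-- bound for the twisted window sums -/
theorem cc_bound (h : StatementBE1) {W : ℕ} (hW : 0 < W) (χ : DirichletCharacter ℂ W) {ε : ℝ}
    (hε : 0 < ε) : ∃ σ₀ : ℝ, 0 < σ₀ ∧ σ₀ ≤ 1 ∧ ∀ σ : ℝ, 0 < σ → σ ≤ σ₀ → ∀ t : ℝ,
      |t| ≤ 2 * Real.exp (1 / σ) → ∀ y : ℝ, 1 / 2 / σ ≤ y → y ≤ 1 / σ →
      ‖cc (u0 (ff χ t) σ) y‖ ≤ ε := by
  obtain ⟨e₁, he₁, σ₁, hσ₁, hσ₁1, hH⟩ := halasz2 hε
  obtain ⟨σ₂, hσ₂, hσ₂1, hF⟩ := F_bound h hW χ he₁
  refine ⟨min σ₁ σ₂, lt_min hσ₁ hσ₂, (min_le_left _ _).trans hσ₁1, ?_⟩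
  intro σ hσ hσ0 t ht y hy1 hy2
  apply hH σ hσ (hσ0.trans (min_le_left _ _)) (ff χ t) (ff_mul χ t) (ff_norm χ t) _ y hy1 hy2
  intro τ hτ
  have h1 := hF σ hσ (hσ0.trans (min_le_right _ _)) (t + τ) (by
    have := abs_add_le t τ
    linarith)
  rw [lseries_eq hσ] at h1
  have e : DS (u0 (ff χ t) σ) τ = DS (fun n => ((lam n : ℂ) * χ n) * (wt σ n : ℂ)) (t + τ) := by
    unfold DS u0 ff
    apply tsum_congr
    intro n
    rw [nit_add]
    ring
  rw [e]
  exact h1

/-- the sum with weights `1/n` -/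
noncomputable def SX {W : ℕ} (χ : DirichletCharacter ℂ W) (M t : ℝ) : ℂ :=
  ∑ n ∈ Finset.Icc 1 ⌊M * Real.exp 1⌋₊,
    ((1 / (n : ℝ) * tent (Real.log n - Real.log M) : ℝ) : ℂ) * ff χ t n

theorem tent_zero_out {M : ℝ} (hM : 0 < M) {n : ℕ} (hn : n ∉ Finset.Icc 1 ⌊M * Real.exp 1⌋₊)
    (h0 : n ≠ 0) : tent (Real.log n - Real.log M) = 0 := by
  by_contra hcon
  have h1 := (tent_supp hM (Nat.pos_of_ne_zero h0) hcon).1
  apply hn
  rw [mem_Icc]
  refine ⟨Nat.pos_of_ne_zero h0, ?_⟩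
  apply Nat.le_floor
  rwa [mul_comm]

theorem cc_eq_finset {f : ℕ → ℂ} {σ M : ℝ} (hσ : 0 < σ) (hM : 0 < M) :
    cc (u0 f σ) (Real.log M) = ∑ n ∈ Finset.Icc 1 ⌊M * Real.exp 1⌋₊,
      u0 f σ n * (tent (Real.log n - Real.log M) : ℂ) := by
  unfold cc
  apply tsum_eq_sum
  intro n hn
  rcases eq_or_ne n 0 with h0 | h0
  · subst h0
    unfold u0
    rw [wt_zero hσ]
    simp
  · rw [tent_zero_out hM hn h0]
    simp

theorem SX_bound {W : ℕ} (χ : DirichletCharacter ℂ W) {M t σ : ℝ} (hσ : 0 < σ) (hσ1 : σ ≤ 1)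
    (hM : 1 ≤ M) (hM2 : Real.log M ≤ 1 / σ) :
    ‖SX χ M t‖ ≤ 3 * (‖cc (u0 (ff χ t) σ) (Real.log M)‖ + 18 * σ) := by
  have hM0 : 0 < M := by linarith
  have hlM : 0 ≤ Real.log M := Real.log_nonneg hM
  have hMσ : Real.exp (σ * Real.log M) ≤ 3 := by
    have h1 : σ * Real.log M ≤ 1 := by
      calc σ * Real.log M ≤ σ * (1 / σ) := mul_le_mul_of_nonneg_left hM2 hσ.le
        _ = 1 := by field_simp
    exact (Real.exp_le_exp.2 h1).trans exp1_lt3.le
  rw [cc_eq_finset hσ hM0]
  set S := ∑ n ∈ Finset.Icc 1 ⌊M * Real.exp 1⌋₊,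
      u0 (ff χ t) σ n * (tent (Real.log n - Real.log M) : ℂ) with hS
  have h1 : ‖SX χ M t - (Real.exp (σ * Real.log M) : ℂ) * S‖ ≤ 3 * (2 * σ) * 9 := by
    unfold SX
    rw [hS, Finset.mul_sum, ← Finset.sum_sub_distrib]
    have hw := window_one hσ hM0
    calc _ ≤ ∑ n ∈ Finset.Icc 1 ⌊M * Real.exp 1⌋₊,
          3 * (2 * σ) * (wt σ n * tent (Real.log n - Real.log M)) := by
          apply norm_sum_le_of_le
          intro n hn
          rw [mem_Icc] at hn
          have hn0 : (0 : ℝ) < n := by exact_mod_cast hn.1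
          have e1 : 1 / (n : ℝ) = Real.exp (σ * Real.log n) * wt σ n := by
            unfold wt
            rw [Real.rpow_def_of_pos hn0, ← Real.exp_add, one_div, ← Real.exp_log (inv_pos.2 hn0),
              Real.log_inv]
            congr 1
            ring
          have e2 : ((1 / (n : ℝ) * tent (Real.log n - Real.log M) : ℝ) : ℂ) * ff χ t n -
              (Real.exp (σ * Real.log M) : ℂ) *
                (u0 (ff χ t) σ n * (tent (Real.log n - Real.log M) : ℂ)) =
              ((Real.exp (σ * Real.log M) * (Real.exp (σ * (Real.log n - Real.log M)) - 1) *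
                (wt σ n * tent (Real.log n - Real.log M)) : ℝ) : ℂ) * ff χ t n := by
            have e3 : Real.exp (σ * Real.log n) =
                Real.exp (σ * Real.log M) * Real.exp (σ * (Real.log n - Real.log M)) := by
              rw [← Real.exp_add]
              congr 1
              ring
            rw [e1, e3]
            unfold u0
            push_cast
            ring
          rw [e2, norm_mul, Complex.norm_real]
          have hff := ff_norm χ t n
          by_cases ht : tent (Real.log n - Real.log M) = 0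
          · rw [ht]; simp
          · have h6 : |Real.log n - Real.log M| < 1 := by
              by_contra hcon
              push Not at hcon
              exact ht (tent_eq_zero hcon)
            have h7 : |σ * (Real.log n - Real.log M)| ≤ 1 := by
              rw [abs_mul, abs_of_pos hσ]
              nlinarith [abs_nonneg (Real.log n - Real.log M)]
            have h8 : |Real.exp (σ * (Real.log n - Real.log M)) - 1| ≤ 2 * σ := by
              refine (Real.abs_exp_sub_one_le h7).trans ?_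
              rw [abs_mul, abs_of_pos hσ]
              nlinarith [abs_nonneg (Real.log n - Real.log M)]
            have h9 : 0 ≤ wt σ n * tent (Real.log n - Real.log M) :=
              mul_nonneg (wt_nonneg _ _) (tent_nonneg _)
            rw [norm_mul, norm_mul, Real.norm_of_nonneg (Real.exp_pos _).le,
              Real.norm_of_nonneg h9, Real.norm_eq_abs]
            calc _ ≤ (3 * (2 * σ) * (wt σ n * tent (Real.log n - Real.log M))) * 1 := by
                  apply mul_le_mul _ hff (norm_nonneg _) (by positivity)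
                  apply mul_le_mul_of_nonneg_right _ h9
                  exact mul_le_mul hMσ h8 (abs_nonneg _) (by norm_num)
              _ = _ := mul_one _
      _ = 3 * (2 * σ) * ∑ n ∈ Finset.Icc 1 ⌊M * Real.exp 1⌋₊,
            wt σ n * tent (Real.log n - Real.log M) := by rw [Finset.mul_sum]
      _ ≤ 3 * (2 * σ) * 9 := by
          apply mul_le_mul_of_nonneg_left _ (by positivity)
          refine le_trans ?_ hw.2
          exact hw.1.sum_le_tsum _ (fun n _ => mul_nonneg (wt_nonneg _ _) (tent_nonneg _))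
  have h2 : ‖SX χ M t‖ ≤ ‖SX χ M t - (Real.exp (σ * Real.log M) : ℂ) * S‖ +
      ‖(Real.exp (σ * Real.log M) : ℂ) * S‖ := by
    have := norm_add_le (SX χ M t - (Real.exp (σ * Real.log M) : ℂ) * S)
      ((Real.exp (σ * Real.log M) : ℂ) * S)
    simpa using this
  have h3 : ‖(Real.exp (σ * Real.log M) : ℂ) * S‖ ≤ 3 * ‖S‖ := by
    rw [norm_mul, Complex.norm_real, Real.norm_of_nonneg (Real.exp_pos _).le]
    exact mul_le_mul_of_nonneg_right hMσ (norm_nonneg _)
  linarith

/-- decomposition into characters -/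
theorem FX_eq {W b : ℕ} [NeZero W] (hb : Nat.Coprime b W) (M t : ℝ) :
    FX W b M t = (1 / (Nat.totient W : ℂ)) *
      ∑ χ : DirichletCharacter ℂ W, χ (((b : ZMod W))⁻¹) * SX χ M t := by
  have hφ : (Nat.totient W : ℂ) ≠ 0 := by
    have := Nat.totient_pos.2 (Nat.pos_of_ne_zero (NeZero.ne W))
    exact_mod_cast this.ne'
  have hbu : IsUnit (b : ZMod W) := (ZMod.isUnit_iff_coprime b W).2 hb
  unfold FX SX
  simp_rw [Finset.mul_sum]
  rw [Finset.sum_comm]
  apply Finset.sum_congr rfl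
  intro n _
  have h1 := DirichletCharacter.sum_char_inv_mul_char_eq ℂ hbu (n : ZMod W)
  have h2 : ∀ χ : DirichletCharacter ℂ W, 1 / (Nat.totient W : ℂ) *
      (χ (((b : ZMod W))⁻¹) * (((1 / (n : ℝ) * tent (Real.log n - Real.log M) : ℝ) : ℂ) * ff χ t n)) =
      (χ (((b : ZMod W))⁻¹) * χ n) * (1 / (Nat.totient W : ℂ) *
        ((1 / (n : ℝ) * tent (Real.log n - Real.log M) : ℝ) : ℂ) * (lam n : ℂ) * nit n t) := by
    intro χ
    unfold ff
    ring
  simp_rw [h2]
  rw [← Finset.sum_mul, h1]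
  unfold fW
  by_cases hc : n ≡ b [MOD W]
  · have hc2 : (b : ZMod W) = (n : ZMod W) := ((ZMod.natCast_eq_natCast_iff _ _ _).2 hc).symm
    rw [if_pos hc, if_pos hc2]
    push_cast
    field_simp
  · have hc2 : ¬ (b : ZMod W) = (n : ZMod W) := by
      intro h
      exact hc ((ZMod.natCast_eq_natCast_iff _ _ _).1 h.symm)
    rw [if_neg hc, if_neg hc2]
    simp

theorem sb (h : StatementBE1) : StatementSB := by
  intro W b ε hW hb hε
  have : NeZero W := ⟨hW.ne'⟩
  have hε6 : 0 < ε / 6 := by positivity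
  choose σ₀ hσ₀ hσ₀1 hcc using fun χ : DirichletCharacter ℂ W => cc_bound h hW χ hε6
  obtain ⟨σ₁, hσ₁, hσ₁χ⟩ : ∃ σ₁ : ℝ, 0 < σ₁ ∧ ∀ χ : DirichletCharacter ℂ W, σ₁ ≤ σ₀ χ := by
    have hne : (Finset.univ : Finset (DirichletCharacter ℂ W)).Nonempty := ⟨1, Finset.mem_univ _⟩
    refine ⟨Finset.univ.inf' hne σ₀, ?_, fun χ => Finset.inf'_le _ (Finset.mem_univ χ)⟩
    rw [Finset.lt_inf'_iff]
    exact fun χ _ => hσ₀ χ
  set σ₂ := min σ₁ (ε / 108) with hσ₂
  have hσ₂0 : 0 < σ₂ := lt_min hσ₁ (by positivity)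
  refine ⟨Real.exp (1 / σ₂), ?_⟩
  intro X t M hX ht hM1 hM2
  have hX1 : 1 < X := by
    have : 1 < Real.exp (1 / σ₂) := Real.one_lt_exp_iff.2 (by positivity)
    linarith
  have hX0 : 0 < X := by linarith
  have hlX : 1 / σ₂ ≤ Real.log X := by
    rw [Real.le_log_iff_exp_le hX0]
    exact hX
  have hlX0 : 0 < Real.log X := lt_of_lt_of_le (by positivity) hlX
  set σ := 1 / Real.log X with hσd
  have hσ : 0 < σ := by positivity
  have hσ2 : σ ≤ σ₂ := by
    rw [hσd, div_le_iff₀ hlX0]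
    rw [div_le_iff₀ hσ₂0] at hlX
    linarith
  have hσinv : 1 / σ = Real.log X := by rw [hσd]; field_simp
  have hσ1 : σ ≤ 1 := (hσ2.trans (min_le_left _ _)).trans ((hσ₁χ 1).trans (hσ₀1 1))
  have hXM : 1 ≤ X ^ (1 / 2 : ℝ) := Real.one_le_rpow hX1.le (by norm_num)
  have hM : 1 ≤ M := hXM.trans hM1
  have hM0 : 0 < M := by linarith
  have hlM1 : 1 / 2 / σ ≤ Real.log M := by
    have h1 : Real.log (X ^ (1 / 2 : ℝ)) ≤ Real.log M := Real.log_le_log (by positivity) hM1
    rw [Real.log_rpow hX0] at h1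
    have h2 : 1 / 2 / σ = 1 / 2 * (1 / σ) := by ring
    rw [h2, hσinv]
    exact h1
  have hlM2 : Real.log M ≤ 1 / σ := by
    rw [hσinv]
    exact Real.log_le_log hM0 hM2
  have hS : ∀ χ : DirichletCharacter ℂ W, ‖SX χ M t‖ ≤ ε := by
    intro χ
    have h1 := SX_bound χ (t := t) hσ hσ1 hM hlM2
    have h2 := hcc χ σ hσ ((hσ2.trans (min_le_left _ _)).trans (hσ₁χ χ)) t (by
      rw [hσinv, Real.exp_log hX0]; exact ht) (Real.log M) hlM1 hlM2
    have h3 : σ ≤ ε / 108 := hσ2.trans (min_le_right _ _)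
    linarith
  rw [FX_eq hb]
  have hφ0 : 0 < Nat.totient W := Nat.totient_pos.2 hW
  have hφ : (0 : ℝ) < Nat.totient W := by exact_mod_cast hφ0
  rw [norm_mul, norm_div, norm_one, Complex.norm_natCast]
  have h4 : ‖∑ χ : DirichletCharacter ℂ W, χ (((b : ZMod W))⁻¹) * SX χ M t‖ ≤
      Nat.totient W * ε := by
    calc _ ≤ ∑ χ : DirichletCharacter ℂ W, ε := by
          apply norm_sum_le_of_le
          intro χ _
          rw [norm_mul]
          calc _ ≤ 1 * ε := mul_le_mul (χ.norm_le_one _) (hS χ) (norm_nonneg _) zero_le_one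
            _ = ε := one_mul _
      _ = Nat.totient W * ε := by
          rw [Finset.sum_const, nsmul_eq_mul, Finset.card_univ, ← Nat.card_eq_fintype_card,
            DirichletCharacter.card_eq_totient_of_hasEnoughRootsOfUnity ℂ W]
  calc _ ≤ (1 / (Nat.totient W : ℝ)) * (Nat.totient W * ε) :=
        mul_le_mul_of_nonneg_left h4 (by positivity)
    _ = ε := by field_simp

end Pool.Agent.H22.MR
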