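import Pool.Agent.H22.MR.Ker

/-! Fourier identities for the module [SB] (helper22). -/

set_option autoImplicit false

open Finset Real MeasureTheory

namespace Pool.Agent.H22.MR
open Pool.Agent.H24.MR (tent nit)

/-- `∑ u n n^{-iτ}` -/
noncomputable def DS (u : ℕ → ℂ) (τ : ℝ) : ℂ := ∑' n, u n * nit n τ

theorem ds_summable {u : ℕ → ℂ} (hu : Summable (fun n => ‖u n‖)) (τ : ℝ) :
    Summable (fun n => u n * nit n τ) := by
  apply Summable.of_norm
  simpa [norm_nit] using hu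

theorem ds_norm_le {u : ℕ → ℂ} (hu : Summable (fun n => ‖u n‖)) (τ : ℝ) :
    ‖DS u τ‖ ≤ ∑' n, ‖u n‖ := by
  unfold DS
  have h1 : Summable (fun n => ‖u n * nit n τ‖) := by simpa [norm_nit] using hu
  refine (norm_tsum_le_tsum_norm h1).trans ?_
  simp [norm_nit]

theorem ds_cont {u : ℕ → ℂ} (hu : Summable (fun n => ‖u n‖)) : Continuous (DS u) := by
  unfold DS
  apply continuous_tsum (fun n => continuous_const.mul (nit_cont n)) hu
  intro n τ
  simp only [Pi.mul_apply]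
  rw [norm_mul, norm_nit, mul_one]

/-- bounded continuous functions are integrable against the kernel -/
theorem ker_mul_int {Φ : ℝ → ℂ} (hΦ : Continuous Φ) {B : ℝ} (hB : ∀ τ, ‖Φ τ‖ ≤ B) :
    Integrable (fun τ => (ker τ : ℂ) * Φ τ) := by
  apply Integrable.mono' (ker_int.mul_const B)
  · exact ((Complex.measurable_ofReal.comp ker_meas).mul hΦ.measurable).aestronglyMeasurable
  · refine Filter.Eventually.of_forall fun τ => ?_
    simp only [norm_mul, Complex.norm_real]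
    rw [Real.norm_of_nonneg (ker_nonneg τ)]
    exact mul_le_mul_of_nonneg_left (hB τ) (ker_nonneg τ)

/-- exchange of sum and integral -/
theorem exchange {u : ℕ → ℂ} (hu : Summable (fun n => ‖u n‖)) {Φ : ℝ → ℂ} (hΦ : Continuous Φ)
    {B : ℝ} (hB : ∀ τ, ‖Φ τ‖ ≤ B) :
    HasSum (fun n => u n * ∫ τ : ℝ, (ker τ : ℂ) * (nit n τ * Φ τ))
      (∫ τ : ℝ, (ker τ : ℂ) * (DS u τ * Φ τ)) := by
  have hB' : ∀ n τ, ‖nit n τ * Φ τ‖ ≤ B := by
    intro n τ
    rw [norm_mul, norm_nit, one_mul]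
    exact hB τ
  have hI : ∀ n, Integrable (fun τ => u n * ((ker τ : ℂ) * (nit n τ * Φ τ))) := by
    intro n
    exact (ker_mul_int ((nit_cont n).mul hΦ) (hB' n)).const_mul _
  have hS : Summable (fun n => ∫ τ : ℝ, ‖u n * ((ker τ : ℂ) * (nit n τ * Φ τ))‖) := by
    have e : ∀ n, ∫ τ : ℝ, ‖u n * ((ker τ : ℂ) * (nit n τ * Φ τ))‖ =
        ‖u n‖ * ∫ τ : ℝ, ‖(ker τ : ℂ) * Φ τ‖ := by
      intro n
      rw [← integral_const_mul]
      congr 1
      ext τ
      rw [norm_mul, norm_mul, norm_mul, norm_mul, norm_nit, one_mul]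
    simp_rw [e]
    exact hu.mul_right _
  have h := hasSum_integral_of_summable_integral_norm hI hS
  simp_rw [integral_const_mul] at h
  have e : ∀ τ : ℝ, (ker τ : ℂ) * (DS u τ * Φ τ) =
      ∑' n, u n * ((ker τ : ℂ) * (nit n τ * Φ τ)) := by
    intro τ
    unfold DS
    rw [← tsum_mul_right, ← tsum_mul_left]
    congr 1
    ext n
    ring
  simp_rw [e]
  exact h

/-- the weighted window sum -/
noncomputable def cc (u : ℕ → ℂ) (y : ℝ) : ℂ := ∑' n, u n * (tent (Real.log n - y) : ℂ)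

theorem cc_summable {u : ℕ → ℂ} (hu : Summable (fun n => ‖u n‖)) (y : ℝ) :
    Summable (fun n => u n * (tent (Real.log n - y) : ℂ)) := by
  apply Summable.of_norm_bounded hu
  intro n
  rw [norm_mul, Complex.norm_real, Real.norm_of_nonneg (tent_nonneg _)]
  exact mul_le_of_le_one_right (norm_nonneg _) (tent_le_one _)

theorem tent_symm (u v : ℝ) : tent (u - v) = tent (v - u) := by
  unfold tent
  rw [abs_sub_comm]

/-- (I) -/
theorem four_one {u : ℕ → ℂ} (hu : Summable (fun n => ‖u n‖)) (y : ℝ) :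
    ∫ τ : ℝ, (ker τ : ℂ) * (DS u τ * ee τ y) = cc u y := by
  have h := exchange hu (ee_cont y) (B := 1) (fun τ => (norm_ee τ y).le)
  rw [← h.tsum_eq]
  unfold cc
  congr 1
  ext n
  congr 1
  have e : ∀ τ : ℝ, nit n τ * ee τ y = ee τ (y - Real.log n) := by
    intro τ
    rw [nit_eq, ← ee_add]
    congr 1
    ring
  simp_rw [e]
  rw [ker_ee, tent_symm]

theorem cc_norm_le {u : ℕ → ℂ} {v : ℕ → ℝ} (huv : ∀ n, ‖u n‖ ≤ v n) (hv : Summable v) (y : ℝ) :
    ‖cc u y‖ ≤ ∑' n, v n * tent (Real.log n - y) := by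
  unfold cc
  have hs : Summable (fun n => v n * tent (Real.log n - y)) := by
    apply Summable.of_nonneg_of_le (fun n => ?_) (fun n => ?_) hv
    · exact mul_nonneg ((norm_nonneg _).trans (huv n)) (tent_nonneg _)
    · exact mul_le_of_le_one_right ((norm_nonneg _).trans (huv n)) (tent_le_one _)
  apply tsum_of_norm_bounded hs.hasSum (fun n => ?_)
  · rw [norm_mul, Complex.norm_real, Real.norm_of_nonneg (tent_nonneg _)]
    exact mul_le_mul_of_nonneg_right (huv n) (tent_nonneg _)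

/-- (II) mean square -/
theorem four_two {u : ℕ → ℂ} {v : ℕ → ℝ} (huv : ∀ n, ‖u n‖ ≤ v n) (hv : Summable v) {A B : ℝ}
    (hA : ∀ m : ℕ, ∑' n, v n * tent (Real.log n - Real.log m) ≤ A) (hB : ∑' n, v n ≤ B) :
    ∫ τ : ℝ, ker τ * ‖DS u τ‖ ^ 2 ≤ A * B := by
  have hu : Summable (fun n => ‖u n‖) := Summable.of_nonneg_of_le (fun _ => norm_nonneg _) huv hv
  have hv0 : ∀ n, 0 ≤ v n := fun n => (norm_nonneg _).trans (huv n)
  have hA0 : 0 ≤ A := (tsum_nonneg fun n => mul_nonneg (hv0 n) (tent_nonneg _)).trans (hA 0)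
  have hΦ : Continuous (fun τ => (starRingEnd ℂ) (DS u τ)) :=
    Complex.continuous_conj.comp (ds_cont hu)
  have h := exchange hu hΦ (B := ∑' n, ‖u n‖) (fun τ => by
    rw [RCLike.norm_conj]; exact ds_norm_le hu τ)
  have e : ∀ τ : ℝ, (ker τ : ℂ) * (DS u τ * (starRingEnd ℂ) (DS u τ)) =
      ((ker τ * ‖DS u τ‖ ^ 2 : ℝ) : ℂ) := by
    intro τ
    rw [Complex.mul_conj, Complex.normSq_eq_norm_sq]
    push_cast
    ring
  simp_rw [e] at h
  rw [integral_complex_ofReal] at h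
  have h2 : ∀ n, ∫ τ : ℝ, (ker τ : ℂ) * (nit n τ * (starRingEnd ℂ) (DS u τ)) =
      (starRingEnd ℂ) (cc u (Real.log n)) := by
    intro n
    rw [← four_one hu, ← integral_conj]
    congr 1
    ext τ
    rw [map_mul, map_mul, Complex.conj_ofReal]
    congr 1
    rw [mul_comm]
    congr 1
    rw [nit_eq]
    unfold ee
    rw [← Complex.exp_conj, map_mul, Complex.conj_I, Complex.conj_ofReal]
    congr 1
    push_cast
    ring
  simp_rw [h2] at h
  have h3 : ∀ n, ‖u n * (starRingEnd ℂ) (cc u (Real.log n))‖ ≤ v n * A := by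
    intro n
    rw [norm_mul, RCLike.norm_conj]
    exact mul_le_mul (huv n) ((cc_norm_le huv hv _).trans (hA n)) (norm_nonneg _) (hv0 n)
  have h4 : ‖((∫ τ : ℝ, ker τ * ‖DS u τ‖ ^ 2 : ℝ) : ℂ)‖ ≤ (∑' n, v n) * A := by
    rw [← h.tsum_eq]
    exact tsum_of_norm_bounded (hv.hasSum.mul_right A) h3
  rw [Complex.norm_real] at h4
  calc _ ≤ _ := Real.le_norm_self _
    _ ≤ _ := h4
    _ ≤ B * A := mul_le_mul_of_nonneg_right hB hA0
    _ = A * B := mul_comm _ _

end Pool.Agent.H22.MR
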