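import Pool.Agent.H22.MR.Rec2

/-! The iteration for the module [SB] (helper22). -/

set_option autoImplicit false

open Finset Real MeasureTheory
open scoped ArithmeticFunction.vonMangoldt

namespace Pool.Agent.H22.MR
open Pool.Agent.H24.MR (tent nit)

variable {f : ℕ → ℂ} {σ : ℝ}

theorem iter_bound (hσ : 0 < σ) (hσ1 : σ ≤ 1) (hf : ∀ m n, m ≠ 0 → n ≠ 0 → f (m * n) = f m * f n)
    (hf1 : ∀ n, ‖f n‖ ≤ 1) {dl E : ℝ} (K : ℕ) (hE0 : 0 ≤ E)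
    (hE : ∫ τ : ℝ, ker τ * (‖DS (u0 f σ) τ‖ * ‖DS (ud f σ) τ‖ ^ 2) ≤ E / σ ^ 2)
    (hdl : 0 < dl) (hdl1 : dl ≤ 1) (hK : 88 ≤ dl ^ K / 2 / σ) (i : ℕ) (hi : i ≤ K) :
    ∀ y, dl ^ (K - i) / 2 / σ ≤ y → y ≤ 1 / σ → ‖cc (u0 f σ) y‖ ≤
      9 * (7 / 8) ^ i + 8 * (4 * E / (dl ^ K) ^ 2 + 18 * dl + 400 * σ / dl ^ K) := by
  have hdK : 0 < dl ^ K := pow_pos hdl K
  set η := 4 * E / (dl ^ K) ^ 2 + 18 * dl + 400 * σ / dl ^ K with hη
  have hη0 : 0 ≤ η := by positivity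
  induction i with
  | zero =>
    intro y _ _
    have := cc_le_nine hσ hσ1 hf1 y
    rw [pow_zero]
    linarith
  | succ i ih =>
    intro y hy1 hy2
    have ih' := ih (by omega)
    set κ := dl ^ (K - (i + 1)) / 2 with hκdef
    have hκK : dl ^ K / 2 ≤ κ := by
      have := pow_le_pow_of_le_one hdl.le hdl1 (show K - (i + 1) ≤ K by omega)
      rw [hκdef]; linarith
    have hκ0 : 0 < κ := by rw [hκdef]; positivity
    have h := rec_step hσ hσ1 hf hf1 (y := y) (dl := dl) (S := 9 * (7 / 8) ^ i + 8 * η) (E := E)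
      (κ := κ) hE hκ0 (hK.trans (div_le_div_of_nonneg_right hκK hσ.le)) hy1 hdl hdl1 (by
        intro z hz1 hz2
        apply ih' z _ (hz2.trans hy2)
        refine le_trans ?_ hz1
        have e : dl ^ (K - i) / 2 / σ = dl * (κ / σ) := by
          rw [hκdef, show K - i = (K - (i + 1)) + 1 by omega, pow_succ]
          ring
        rw [e]
        exact mul_le_mul_of_nonneg_left hy1 hdl.le)
    have h1 : E / κ ^ 2 ≤ 4 * E / (dl ^ K) ^ 2 := by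
      have h2 : (dl ^ K) ^ 2 ≤ 4 * κ ^ 2 := by nlinarith
      rw [div_le_div_iff₀ (by positivity) (by positivity)]
      calc E * (dl ^ K) ^ 2 ≤ E * (4 * κ ^ 2) := mul_le_mul_of_nonneg_left h2 hE0
        _ = 4 * E * κ ^ 2 := by ring
    have h3 : 200 * σ / κ ≤ 400 * σ / dl ^ K := by
      rw [div_le_div_iff₀ hκ0 hdK]
      nlinarith
    have e : (9 : ℝ) * (7 / 8) ^ (i + 1) = 7 / 8 * (9 * (7 / 8) ^ i) := by ring
    rw [e]
    linarith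

theorem halasz_abs {ε : ℝ} (hε : 0 < ε) : ∃ E : ℝ, 0 < E ∧ ∃ σ₀ : ℝ, 0 < σ₀ ∧ σ₀ ≤ 1 ∧
    ∀ σ : ℝ, 0 < σ → σ ≤ σ₀ → ∀ f : ℕ → ℂ, (∀ m n, m ≠ 0 → n ≠ 0 → f (m * n) = f m * f n) →
    (∀ n, ‖f n‖ ≤ 1) →
    ∫ τ : ℝ, ker τ * (‖DS (u0 f σ) τ‖ * ‖DS (ud f σ) τ‖ ^ 2) ≤ E / σ ^ 2 →
    ∀ y, 1 / 2 / σ ≤ y → y ≤ 1 / σ → ‖cc (u0 f σ) y‖ ≤ ε := by
  obtain ⟨dl, hdl, hdl1, hdl2⟩ : ∃ dl : ℝ, 0 < dl ∧ dl ≤ 1 ∧ 8 * (18 * dl) ≤ ε / 4 := by
    refine ⟨min 1 (ε / 576), lt_min one_pos (by positivity), min_le_left _ _, ?_⟩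
    have := min_le_right 1 (ε / 576)
    linarith
  obtain ⟨K, hK⟩ : ∃ K : ℕ, (7 / 8 : ℝ) ^ K < ε / 36 :=
    exists_pow_lt_of_lt_one (by positivity) (by norm_num)
  have hdK : 0 < dl ^ K := pow_pos hdl K
  refine ⟨ε * (dl ^ K) ^ 2 / 128, by positivity,
    min 1 (min (dl ^ K / 176) (ε * dl ^ K / 12800)), lt_min one_pos (lt_min (by positivity) (by positivity)),
    min_le_left _ _, ?_⟩
  intro σ hσ hσ0 f hf hf1 hE y hy1 hy2
  have hσ1 : σ ≤ 1 := hσ0.trans (min_le_left _ _)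
  have hσ2 : σ ≤ dl ^ K / 176 := hσ0.trans ((min_le_right _ _).trans (min_le_left _ _))
  have hσ3 : σ ≤ ε * dl ^ K / 12800 := hσ0.trans ((min_le_right _ _).trans (min_le_right _ _))
  have h := iter_bound hσ hσ1 hf hf1 (dl := dl) K (by positivity) hE hdl hdl1 (by
    rw [le_div_iff₀ hσ]; linarith) K le_rfl y (by
    rw [Nat.sub_self, pow_zero]; exact hy1) hy2
  have e1 : 8 * (4 * (ε * (dl ^ K) ^ 2 / 128) / (dl ^ K) ^ 2) = ε / 4 := by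
    field_simp
    ring
  have e2 : 8 * (400 * σ / dl ^ K) ≤ ε / 4 := by
    have : 400 * σ / dl ^ K ≤ ε / 32 := by
      rw [div_le_iff₀ hdK]
      linarith
    linarith
  linarith

/-- bound of the integral from a sup bound -/
theorem int_bound {A : ℝ} (hA0 : 0 ≤ A)
    (hA : ∀ X : ℝ, 0 < X → ∫ τ : ℝ, ker τ * (if X < |τ| then 1 else 0) ≤ A / X)
    (hσ : 0 < σ) (hσ1 : σ ≤ 1) (hf1 : ∀ n, ‖f n‖ ≤ 1) {e₁ : ℝ} (he₁ : 0 ≤ e₁)
    (hs : ∀ τ, |τ| ≤ Real.exp (1 / σ) → ‖DS (u0 f σ) τ‖ ≤ e₁ / σ) :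
    ∫ τ : ℝ, ker τ * (‖DS (u0 f σ) τ‖ * ‖DS (ud f σ) τ‖ ^ 2) ≤
      (1944 * e₁ + 15552 * A * σ) / σ ^ 2 := by
  set X := Real.exp (1 / σ) with hX
  have hX0 : 0 < X := Real.exp_pos _
  have s0 := sum_u0 hσ hf1
  have sd := sum_ud hσ hf1
  have b0 : ∀ τ, ‖DS (u0 f σ) τ‖ ≤ 6 / σ := by
    intro τ
    refine (ds_norm_le s0 τ).trans ?_
    refine le_trans ?_ (one_tsum hσ hσ1).2
    exact s0.tsum_le_tsum (u0_norm hf1) (one_tsum hσ hσ1).1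
  have bd : ∀ τ, ‖DS (ud f σ) τ‖ ≤ 36 / σ := by
    intro τ
    refine (ds_norm_le sd τ).trans ?_
    refine le_trans ?_ (vM_tsum hσ hσ1).2
    exact sd.tsum_le_tsum (ud_norm hf1) (vM_tsum hσ hσ1).1
  have hpt : ∀ τ : ℝ, ker τ * (‖DS (u0 f σ) τ‖ * ‖DS (ud f σ) τ‖ ^ 2) ≤
      (e₁ / σ) * (ker τ * ‖DS (ud f σ) τ‖ ^ 2) +
      (6 / σ * (36 / σ) ^ 2) * (ker τ * (if X < |τ| then 1 else 0)) := by
    intro τ
    have hk := ker_nonneg τ
    split_ifs with h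
    · have h1 : ‖DS (u0 f σ) τ‖ * ‖DS (ud f σ) τ‖ ^ 2 ≤ 6 / σ * (36 / σ) ^ 2 :=
        mul_le_mul (b0 τ) (pow_le_pow_left₀ (norm_nonneg _) (bd τ) 2) (by positivity) (by positivity)
      have h2 : 0 ≤ (e₁ / σ) * (ker τ * ‖DS (ud f σ) τ‖ ^ 2) := by positivity
      calc ker τ * (‖DS (u0 f σ) τ‖ * ‖DS (ud f σ) τ‖ ^ 2) ≤ ker τ * (6 / σ * (36 / σ) ^ 2) :=
            mul_le_mul_of_nonneg_left h1 hk
        _ = (6 / σ * (36 / σ) ^ 2) * (ker τ * 1) := by ring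
        _ ≤ _ := by linarith
    · have h1 := hs τ (not_lt.1 h)
      rw [mul_zero, mul_zero, add_zero]
      calc ker τ * (‖DS (u0 f σ) τ‖ * ‖DS (ud f σ) τ‖ ^ 2)
          = ‖DS (u0 f σ) τ‖ * (ker τ * ‖DS (ud f σ) τ‖ ^ 2) := by ring
        _ ≤ (e₁ / σ) * (ker τ * ‖DS (ud f σ) τ‖ ^ 2) :=
            mul_le_mul_of_nonneg_right h1 (by positivity)
  have i1 : Integrable (fun τ : ℝ => ker τ * ‖DS (ud f σ) τ‖ ^ 2) := by
    apply Integrable.mono' (ker_int.mul_const ((36 / σ) ^ 2))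
    · exact (ker_meas.mul ((ds_cont sd).norm.pow 2).measurable).aestronglyMeasurable
    · refine Filter.Eventually.of_forall fun τ => ?_
      rw [Real.norm_of_nonneg (mul_nonneg (ker_nonneg τ) (by positivity))]
      exact mul_le_mul_of_nonneg_left (pow_le_pow_left₀ (norm_nonneg _) (bd τ) 2) (ker_nonneg τ)
  have i2 : Integrable (fun τ : ℝ => ker τ * (if X < |τ| then (1 : ℝ) else 0)) := by
    apply Integrable.mono' ker_int
    · apply (ker_meas.mul _).aestronglyMeasurable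
      exact Measurable.ite (measurableSet_lt measurable_const (by fun_prop)) measurable_const
        measurable_const
    · refine Filter.Eventually.of_forall fun τ => ?_
      have hk := ker_nonneg τ
      split_ifs
      · rw [mul_one, Real.norm_of_nonneg hk]
      · rw [mul_zero, norm_zero]; exact hk
  have h1 : ∫ τ : ℝ, ker τ * (‖DS (u0 f σ) τ‖ * ‖DS (ud f σ) τ‖ ^ 2) ≤
      (e₁ / σ) * (54 * (36 / σ)) + (6 / σ * (36 / σ) ^ 2) * (A / X) := by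
    calc ∫ τ : ℝ, ker τ * (‖DS (u0 f σ) τ‖ * ‖DS (ud f σ) τ‖ ^ 2)
        ≤ ∫ τ : ℝ, ((e₁ / σ) * (ker τ * ‖DS (ud f σ) τ‖ ^ 2) +
          (6 / σ * (36 / σ) ^ 2) * (ker τ * (if X < |τ| then 1 else 0))) := by
          apply integral_mono_of_nonneg
          · refine Filter.Eventually.of_forall fun τ => ?_
            have := ker_nonneg τ
            simp only [Pi.zero_apply]
            positivity
          · exact (i1.const_mul _).add (i2.const_mul _)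
          · exact Filter.Eventually.of_forall hpt
      _ = (e₁ / σ) * (∫ τ : ℝ, ker τ * ‖DS (ud f σ) τ‖ ^ 2) +
          (6 / σ * (36 / σ) ^ 2) * (∫ τ : ℝ, ker τ * (if X < |τ| then 1 else 0)) := by
          rw [integral_add (i1.const_mul _) (i2.const_mul _), integral_const_mul,
            integral_const_mul]
      _ ≤ _ := by
          apply add_le_add
          · exact mul_le_mul_of_nonneg_left (ud_ms hσ hσ1 hf1) (by positivity)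
          · exact mul_le_mul_of_nonneg_left (hA X hX0) (by positivity)
  have h2 : 1 / X ≤ 2 * σ ^ 2 := by
    have h3 : (1 / σ) ^ 2 / 2 ≤ X := by
      have := Real.quadratic_le_exp_of_nonneg (x := 1 / σ) (by positivity)
      have h4 : 0 < 1 / σ := by positivity
      rw [hX]
      linarith
    rw [div_le_iff₀ hX0]
    calc (1 : ℝ) = 2 * σ ^ 2 * ((1 / σ) ^ 2 / 2) := by field_simp
      _ ≤ 2 * σ ^ 2 * X := mul_le_mul_of_nonneg_left h3 (by positivity)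
  have h5 : A / X ≤ A * (2 * σ ^ 2) := by
    calc A / X = A * (1 / X) := by ring
      _ ≤ _ := mul_le_mul_of_nonneg_left h2 hA0
  calc _ ≤ _ := h1
    _ ≤ (e₁ / σ) * (54 * (36 / σ)) + (6 / σ * (36 / σ) ^ 2) * (A * (2 * σ ^ 2)) := by
        have : 0 ≤ 6 / σ * (36 / σ) ^ 2 := by positivity
        have := mul_le_mul_of_nonneg_left h5 this
        linarith
    _ = (1944 * e₁ + 15552 * A * σ) / σ ^ 2 := by
        field_simp
        ring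

theorem halasz2 {ε : ℝ} (hε : 0 < ε) : ∃ e₁ : ℝ, 0 < e₁ ∧ ∃ σ₀ : ℝ, 0 < σ₀ ∧ σ₀ ≤ 1 ∧
    ∀ σ : ℝ, 0 < σ → σ ≤ σ₀ → ∀ f : ℕ → ℂ, (∀ m n, m ≠ 0 → n ≠ 0 → f (m * n) = f m * f n) →
    (∀ n, ‖f n‖ ≤ 1) →
    (∀ τ, |τ| ≤ Real.exp (1 / σ) → ‖DS (u0 f σ) τ‖ ≤ e₁ / σ) →
    ∀ y, 1 / 2 / σ ≤ y → y ≤ 1 / σ → ‖cc (u0 f σ) y‖ ≤ ε := by
  obtain ⟨E, hE, σ₀, hσ₀, hσ₀1, h⟩ := halasz_abs hε
  obtain ⟨A, hA0, hA⟩ := ker_tail
  refine ⟨E / 3888, by positivity, min σ₀ (E / (31104 * (A + 1))),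
    lt_min hσ₀ (by positivity), (min_le_left _ _).trans hσ₀1, ?_⟩
  intro σ hσ hσ2 f hf hf1 hs y hy1 hy2
  have hσ3 : σ ≤ σ₀ := hσ2.trans (min_le_left _ _)
  have hσ4 : σ ≤ E / (31104 * (A + 1)) := hσ2.trans (min_le_right _ _)
  apply h σ hσ hσ3 f hf hf1 _ y hy1 hy2
  refine (int_bound hA0 hA hσ (hσ3.trans hσ₀1) hf1 (by positivity) hs).trans ?_
  apply div_le_div_of_nonneg_right _ (by positivity)
  rw [le_div_iff₀ (by positivity)] at hσ4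
  nlinarith

end Pool.Agent.H22.MR
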