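import Pool.Agent.H22.MR.Win

/-! The Fejer kernel for the module [SB] (helper22). -/

set_option autoImplicit false

open Finset Real MeasureTheory

namespace Pool.Agent.H22.MR
open Pool.Agent.H24.MR (tent nit)

/-- `(1 - cos (a τ)) / τ ^ 2` -/
noncomputable def k0 (a τ : ℝ) : ℝ := (1 - Real.cos (a * τ)) / τ ^ 2

theorem k0_nonneg (a τ : ℝ) : 0 ≤ k0 a τ :=
  div_nonneg (by have := Real.cos_le_one (a * τ); linarith) (sq_nonneg _)

theorem k0_le (a τ : ℝ) : k0 a τ ≤ (a ^ 2 / 2 + 2) * (1 + τ ^ 2)⁻¹ := by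
  unfold k0
  rcases eq_or_ne τ 0 with h | h
  · subst h
    simp
    positivity
  have h2 : 0 < τ ^ 2 := by positivity
  rw [div_le_iff₀ h2, mul_assoc, mul_comm (1 + τ ^ 2)⁻¹, ← div_eq_mul_inv, ← mul_div_assoc,
    le_div_iff₀ (by positivity)]
  have h3 := Real.one_sub_sq_div_two_le_cos (x := a * τ)
  have h4 := Real.neg_one_le_cos (a * τ)
  nlinarith [mul_nonneg (sq_nonneg a) h2.le]

theorem k0_meas (a : ℝ) : Measurable (k0 a) := by
  unfold k0
  fun_prop

theorem k0_int (a : ℝ) : Integrable (k0 a) := by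
  apply Integrable.mono' ((integrable_inv_one_add_sq).const_mul (a ^ 2 / 2 + 2))
    (k0_meas a).aestronglyMeasurable
  refine Filter.Eventually.of_forall fun τ => ?_
  rw [Real.norm_of_nonneg (k0_nonneg a τ)]
  exact k0_le a τ

/-- normalising constant -/
noncomputable def J : ℝ := ∫ τ : ℝ, k0 1 τ

theorem k0_scale (a : ℝ) : ∫ τ : ℝ, k0 a τ = |a| * J := by
  rcases eq_or_ne a 0 with h | h
  · subst h
    simp [k0]
  have e : ∀ τ : ℝ, k0 a τ = a ^ 2 * k0 1 (a * τ) := by
    intro τ
    unfold k0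
    rcases eq_or_ne τ 0 with h0 | h0
    · subst h0; simp
    · rw [one_mul]
      field_simp
  simp_rw [e]
  rw [integral_const_mul, Measure.integral_comp_mul_left, ← J, smul_eq_mul]
  rw [abs_inv, ← mul_assoc]
  congr 1
  have : |a| ≠ 0 := abs_ne_zero.2 h
  rw [← sq_abs]
  field_simp

theorem J_pos : 0 < J := by
  unfold J
  rw [integral_pos_iff_support_of_nonneg (k0_nonneg 1) (k0_int 1)]
  have h1 : Set.Ioo (0 : ℝ) 1 ⊆ Function.support (k0 1) := by
    intro τ hτ
    rw [Function.mem_support]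
    unfold k0
    have h2 : Real.cos (1 * τ) < 1 := by
      rw [one_mul]
      have h3 : Real.cos τ < Real.cos 0 :=
        Real.cos_lt_cos_of_nonneg_of_le_pi le_rfl (by linarith [Real.pi_gt_three, hτ.2]) hτ.1
      rwa [Real.cos_zero] at h3
    have h4 : 0 < τ ^ 2 := by have := hτ.1; positivity
    exact (div_pos (by linarith) h4).ne'
  calc (0 : ENNReal) < volume (Set.Ioo (0 : ℝ) 1) := by simp
    _ ≤ _ := measure_mono h1

/-- the kernel -/
noncomputable def ker (τ : ℝ) : ℝ := k0 1 τ / J

theorem ker_nonneg (τ : ℝ) : 0 ≤ ker τ := div_nonneg (k0_nonneg _ _) J_pos.le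

theorem ker_int : Integrable ker := (k0_int 1).div_const _

theorem ker_meas : Measurable ker := (k0_meas 1).div_const _

theorem ker_even (τ : ℝ) : ker (-τ) = ker τ := by
  unfold ker k0
  simp

theorem ker_cos (u : ℝ) : ∫ τ : ℝ, ker τ * Real.cos (τ * u) = tent u := by
  have e : ∀ τ : ℝ, ker τ * Real.cos (τ * u) =
      (1 / J) * ((1 / 2) * k0 (1 + u) τ + (1 / 2) * k0 (1 - u) τ - k0 u τ) := by
    intro τ
    unfold ker k0
    have h1 : Real.cos ((1 + u) * τ) + Real.cos ((1 - u) * τ) =
        2 * (Real.cos τ * Real.cos (τ * u)) := by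
      rw [show (1 + u) * τ = τ + τ * u by ring, show (1 - u) * τ = τ - τ * u by ring,
        Real.cos_add, Real.cos_sub]
      ring
    have h2 : Real.cos (u * τ) = Real.cos (τ * u) := by rw [mul_comm]
    rw [h2, one_mul]
    have h3 : Real.cos ((1 - u) * τ) =
        2 * (Real.cos τ * Real.cos (τ * u)) - Real.cos ((1 + u) * τ) := by linarith
    rw [h3]
    ring
  simp_rw [e]
  rw [integral_const_mul, integral_sub, integral_add, integral_const_mul, integral_const_mul,
    k0_scale, k0_scale, k0_scale]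
  · have hJ := J_pos.ne'
    have h1 : (1 / J) * ((1 / 2) * (|1 + u| * J) + (1 / 2) * (|1 - u| * J) - |u| * J) =
        (|1 + u| + |1 - u|) / 2 - |u| := by
      field_simp
    rw [h1]
    unfold tent
    rcases le_or_gt |u| 1 with h | h
    · rw [max_eq_right (by linarith)]
      rw [abs_le] at h
      rw [abs_of_nonneg (by linarith : 0 ≤ 1 + u), abs_of_nonneg (by linarith : 0 ≤ 1 - u)]
      ring
    · rw [max_eq_left (by linarith)]
      rcases lt_abs.1 h with h | h
      · rw [abs_of_nonneg (by linarith : 0 ≤ 1 + u), abs_of_nonpos (by linarith : 1 - u ≤ 0),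
          abs_of_nonneg (by linarith : 0 ≤ u)]
        ring
      · rw [abs_of_nonpos (by linarith : 1 + u ≤ 0), abs_of_nonneg (by linarith : 0 ≤ 1 - u),
          abs_of_nonpos (by linarith : u ≤ 0)]
        ring
  · exact (k0_int _).const_mul _
  · exact (k0_int _).const_mul _
  · exact ((k0_int _).const_mul _).add ((k0_int _).const_mul _)
  · exact k0_int _

theorem ker_sin (u : ℝ) : ∫ τ : ℝ, ker τ * Real.sin (τ * u) = 0 := by
  have h := integral_neg_eq_self (fun τ : ℝ => ker τ * Real.sin (τ * u)) volume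
  have e : ∀ τ : ℝ, ker (-τ) * Real.sin (-τ * u) = -(ker τ * Real.sin (τ * u)) := by
    intro τ
    rw [ker_even, neg_mul, Real.sin_neg, mul_neg]
  simp_rw [e] at h
  rw [integral_neg] at h
  linarith

/-- `e^{iτu}` -/
noncomputable def ee (τ u : ℝ) : ℂ := Complex.exp (((τ * u : ℝ) : ℂ) * Complex.I)

theorem norm_ee (τ u : ℝ) : ‖ee τ u‖ = 1 := by
  unfold ee
  exact Complex.norm_exp_ofReal_mul_I _

theorem ee_add (τ u v : ℝ) : ee τ (u + v) = ee τ u * ee τ v := by
  unfold ee
  rw [← Complex.exp_add]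
  congr 1
  push_cast
  ring

theorem ee_eq (τ u : ℝ) : ee τ u = (Real.cos (τ * u) : ℂ) + (Real.sin (τ * u) : ℂ) * Complex.I := by
  unfold ee
  rw [Complex.exp_mul_I, Complex.ofReal_cos, Complex.ofReal_sin]

theorem nit_eq (n : ℕ) (t : ℝ) : nit n t = ee t (-Real.log n) := by
  unfold nit ee
  congr 1
  push_cast
  ring

theorem norm_nit (n : ℕ) (t : ℝ) : ‖nit n t‖ = 1 := by rw [nit_eq, norm_ee]

theorem ee_cont (u : ℝ) : Continuous (fun τ => ee τ u) := by
  unfold ee
  fun_prop

theorem nit_cont (n : ℕ) : Continuous (fun τ => nit n τ) := by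
  simp_rw [nit_eq]
  exact ee_cont _

theorem ker_ee (u : ℝ) : ∫ τ : ℝ, (ker τ : ℂ) * ee τ u = (tent u : ℂ) := by
  have hc : Integrable (fun τ : ℝ => ((ker τ * Real.cos (τ * u) : ℝ) : ℂ)) := by
    apply Integrable.ofReal
    apply ker_int.mono' (ker_meas.mul (by fun_prop)).aestronglyMeasurable
    refine Filter.Eventually.of_forall fun τ => ?_
    simp only [Pi.mul_apply]
    rw [norm_mul, Real.norm_of_nonneg (ker_nonneg τ)]
    exact mul_le_of_le_one_right (ker_nonneg τ) (by rw [Real.norm_eq_abs]; exact Real.abs_cos_le_one _)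
  have hs : Integrable (fun τ : ℝ => ((ker τ * Real.sin (τ * u) : ℝ) : ℂ)) := by
    apply Integrable.ofReal
    apply ker_int.mono' (ker_meas.mul (by fun_prop)).aestronglyMeasurable
    refine Filter.Eventually.of_forall fun τ => ?_
    simp only [Pi.mul_apply]
    rw [norm_mul, Real.norm_of_nonneg (ker_nonneg τ)]
    exact mul_le_of_le_one_right (ker_nonneg τ) (by rw [Real.norm_eq_abs]; exact Real.abs_sin_le_one _)
  have e : ∀ τ : ℝ, (ker τ : ℂ) * ee τ u =
      ((ker τ * Real.cos (τ * u) : ℝ) : ℂ) + ((ker τ * Real.sin (τ * u) : ℝ) : ℂ) * Complex.I := by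
    intro τ
    rw [ee_eq]
    push_cast
    ring
  simp_rw [e]
  rw [integral_add hc (hs.mul_const _), integral_mul_const, integral_complex_ofReal, integral_complex_ofReal,
    ker_cos, ker_sin]
  simp

/-- tail of the kernel -/
theorem ker_tail : ∃ A : ℝ, 0 ≤ A ∧ ∀ X : ℝ, 0 < X →
    ∫ τ : ℝ, ker τ * (if X < |τ| then 1 else 0) ≤ A / X := by
  set g : ℝ → ℝ := fun u => if 1 < |u| then (u ^ 2)⁻¹ else 0 with hg
  have hgm : Measurable g := by
    apply Measurable.ite (measurableSet_lt measurable_const (by fun_prop)) (by fun_prop)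
      measurable_const
  have hg0 : ∀ u, 0 ≤ g u := by
    intro u
    simp only [hg]
    split_ifs <;> positivity
  have hgi : Integrable g := by
    apply Integrable.mono' ((integrable_inv_one_add_sq).const_mul 2) hgm.aestronglyMeasurable
    refine Filter.Eventually.of_forall fun u => ?_
    rw [Real.norm_of_nonneg (hg0 u)]
    simp only [hg]
    split_ifs with h
    · have h1 : 1 < u ^ 2 := by
        rw [← sq_abs]; nlinarith
      rw [← div_eq_mul_inv, inv_eq_one_div, div_le_div_iff₀ (by positivity) (by positivity)]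
      linarith
    · positivity
  refine ⟨2 / J * ∫ u, g u, mul_nonneg (div_nonneg (by norm_num) J_pos.le)
    (integral_nonneg hg0), fun X hX => ?_⟩
  have hgX : Integrable (fun τ : ℝ => g (X⁻¹ * τ)) := hgi.comp_mul_left' (inv_ne_zero hX.ne')
  have e : ∀ τ : ℝ, ker τ * (if X < |τ| then 1 else 0) ≤ 2 / J * ((X ^ 2)⁻¹ * g (X⁻¹ * τ)) := by
    intro τ
    split_ifs with h
    · have h1 : 1 < |X⁻¹ * τ| := by
        rw [abs_mul, abs_inv, abs_of_pos hX, inv_mul_eq_div, lt_div_iff₀ hX]
        linarith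
      simp only [hg]
      rw [if_pos h1, mul_one]
      unfold ker k0
      have h2 : 0 < τ ^ 2 := by
        rw [← sq_abs]
        have : 0 < |τ| := hX.trans h
        positivity
      have h3 := Real.neg_one_le_cos (1 * τ)
      have hJ := J_pos
      have e2 : 2 / J * ((X ^ 2)⁻¹ * ((X⁻¹ * τ) ^ 2)⁻¹) = 2 / τ ^ 2 / J := by
        field_simp
      rw [e2]
      apply div_le_div_of_nonneg_right _ hJ.le
      apply div_le_div_of_nonneg_right _ h2.le
      linarith
    · rw [mul_zero]
      exact mul_nonneg (div_nonneg (by norm_num) J_pos.le) (mul_nonneg (by positivity) (hg0 _))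
  calc ∫ τ : ℝ, ker τ * (if X < |τ| then 1 else 0)
      ≤ ∫ τ : ℝ, 2 / J * ((X ^ 2)⁻¹ * g (X⁻¹ * τ)) := by
        apply integral_mono_of_nonneg
        · refine Filter.Eventually.of_forall fun τ => ?_
          exact mul_nonneg (ker_nonneg _) (by split_ifs <;> norm_num)
        · exact (hgX.const_mul _).const_mul _
        · exact Filter.Eventually.of_forall e
    _ = 2 / J * (∫ u, g u) / X := by
        rw [integral_const_mul, integral_const_mul, Measure.integral_comp_mul_left, inv_inv,
          abs_of_pos hX, smul_eq_mul]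
        field_simp

end Pool.Agent.H22.MR
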