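import Pool.Agent.H22.MR.Iter

/-! Upper bound for Dirichlet L-functions from block sums, for the module [SB] (helper22). -/

set_option autoImplicit false

open Finset Real MeasureTheory Filter

namespace Pool.Agent.H22.MR
open Pool.Agent.H24.MR (tent nit StatementBE1)

/-- antiderivative -/
noncomputable def GG (θ : ℝ) (s : ℂ) (x : ℝ) : ℂ := ((x + θ : ℝ) : ℂ) ^ (s + 1) / (s + 1)

theorem GG_int {θ a b : ℝ} {s : ℂ} (hθ : 0 ≤ θ) (ha : 1 ≤ a) (hab : a ≤ b) (hs : s ≠ -1) :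
    ∫ x in a..b, ((x + θ : ℝ) : ℂ) ^ s = GG θ s b - GG θ s a := by
  have h := intervalIntegral.integral_comp_add_right (a := a) (b := b)
    (fun x : ℝ => (x : ℂ) ^ s) θ
  rw [h, integral_cpow]
  · unfold GG
    rw [sub_div]
  · right
    refine ⟨hs, ?_⟩
    rw [Set.uIcc_of_le (by linarith)]
    intro h0
    have := h0.1
    linarith

theorem GG_norm {θ x σ τ : ℝ} (hθ : 0 ≤ θ) (hx : 1 ≤ x) (hσ : 0 ≤ σ) (hτ : 1 ≤ |τ|) :
    ‖GG θ (-(1 + σ : ℂ) - τ * Complex.I) x‖ ≤ 1 := by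
  unfold GG
  have hpos : 0 < x + θ := by linarith
  rw [norm_div, Complex.norm_cpow_eq_rpow_re_of_pos hpos]
  have e1 : (-(1 + σ : ℂ) - τ * Complex.I + 1).re = -σ := by simp
  have e2 : (-(1 + σ : ℂ) - τ * Complex.I + 1).im = -τ := by simp
  have h1 : 1 ≤ ‖-(1 + σ : ℂ) - τ * Complex.I + 1‖ := by
    have := Complex.abs_im_le_norm (-(1 + σ : ℂ) - τ * Complex.I + 1)
    rw [e2, abs_neg] at this
    linarith
  rw [e1]
  have h2 : (x + θ) ^ (-σ) ≤ 1 := Real.rpow_le_one_of_one_le_of_nonpos (by linarith) (by linarith)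
  rw [div_le_one (by linarith)]
  linarith

/-- dyadic summation of the block bound -/
theorem dyadic {C dl : ℝ} {B : ℕ} (hC : 0 < C) (hdl : 0 < dl)
    (hbe : ∀ (a b : ℕ) (θ σ τ : ℝ), 1 ≤ a → a ≤ b → b ≤ 4 * a →
    0 ≤ θ → θ ≤ 1 → 0 ≤ σ → σ ≤ 1 → |τ| ≤ (a : ℝ) ^ B →
    ‖∑ n ∈ Finset.Ioc a b, (((n : ℝ) + θ : ℝ) : ℂ) ^ (-(1 + σ : ℂ) - τ * Complex.I)
      - ∫ x in (a : ℝ)..b, ((x + θ : ℝ) : ℂ) ^ (-(1 + σ : ℂ) - τ * Complex.I)‖
      ≤ C * (a : ℝ) ^ (-dl))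
    {a₀ : ℕ} {θ σ τ : ℝ} (ha : 1 ≤ a₀) (hθ : 0 ≤ θ) (hθ1 : θ ≤ 1) (hσ : 0 ≤ σ) (hσ1 : σ ≤ 1)
    (hτ1 : 1 ≤ |τ|) (hτ : |τ| ≤ (a₀ : ℝ) ^ B) (J : ℕ) :
    ‖∑ n ∈ Finset.Ioc a₀ (2 ^ J * a₀), (((n : ℝ) + θ : ℝ) : ℂ) ^ (-(1 + σ : ℂ) - τ * Complex.I)‖
      ≤ C / (1 - (2 : ℝ) ^ (-dl)) + 2 := by
  set s : ℂ := -(1 + σ : ℂ) - τ * Complex.I with hs
  have hs1 : s ≠ -1 := by
    intro h
    have h1 : s.im = 0 := by rw [h]; simp
    have h2 : s.im = -τ := by rw [hs]; simp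
    have h3 : τ = 0 := by linarith
    rw [h3, abs_zero] at hτ1
    linarith
  set r : ℝ := (2 : ℝ) ^ (-dl) with hr
  have hr0 : 0 < r := by positivity
  have hr1 : r < 1 := Real.rpow_lt_one_of_one_lt_of_neg (by norm_num) (by linarith)
  have key : ∀ J : ℕ, ‖∑ n ∈ Finset.Ioc a₀ (2 ^ J * a₀), (((n : ℝ) + θ : ℝ) : ℂ) ^ s -
      (GG θ s ((2 ^ J * a₀ : ℕ) : ℝ) - GG θ s a₀)‖ ≤ C * ∑ j ∈ range J, r ^ j := by
    intro J
    induction J with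
    | zero => simp
    | succ J ih =>
      have h2J : 1 ≤ 2 ^ J := Nat.one_le_two_pow
      have hle : a₀ ≤ 2 ^ J * a₀ := Nat.le_mul_of_pos_left _ (by positivity)
      have e1 : 2 ^ (J + 1) * a₀ = 2 * (2 ^ J * a₀) := by ring
      have hle2 : 2 ^ J * a₀ ≤ 2 ^ (J + 1) * a₀ := by rw [e1]; omega
      have h1 : 1 ≤ 2 ^ J * a₀ := ha.trans hle
      have h1r : (1 : ℝ) ≤ ((2 ^ J * a₀ : ℕ) : ℝ) := by exact_mod_cast h1
      have hb := hbe (2 ^ J * a₀) (2 ^ (J + 1) * a₀) θ σ τ h1 hle2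
        (by rw [e1]; omega) hθ hθ1 hσ hσ1 (hτ.trans (by
          apply pow_le_pow_left₀ (by positivity)
          exact_mod_cast hle))
      rw [GG_int hθ h1r (by exact_mod_cast hle2) hs1] at hb
      have e2 := Finset.sum_Ioc_consecutive
        (fun n : ℕ => (((n : ℝ) + θ : ℝ) : ℂ) ^ s) hle hle2
      rw [← e2, Finset.sum_range_succ]
      have h3 : C * ((2 ^ J * a₀ : ℕ) : ℝ) ^ (-dl) ≤ C * r ^ J := by
        apply mul_le_mul_of_nonneg_left _ hC.le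
        have e3 : r ^ J = ((2 : ℝ) ^ J) ^ (-dl) := by
          rw [hr, ← Real.rpow_natCast, ← Real.rpow_mul (by norm_num), ← Real.rpow_natCast,
            ← Real.rpow_mul (by norm_num)]
          ring_nf
        rw [e3]
        apply Real.rpow_le_rpow_of_nonpos (by positivity) _ (by linarith)
        push_cast
        have : (1 : ℝ) ≤ a₀ := by exact_mod_cast ha
        nlinarith [pow_pos (by norm_num : (0 : ℝ) < 2) J]
      calc _ = ‖(∑ n ∈ Finset.Ioc a₀ (2 ^ J * a₀), (((n : ℝ) + θ : ℝ) : ℂ) ^ s -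
              (GG θ s ((2 ^ J * a₀ : ℕ) : ℝ) - GG θ s a₀)) +
            (∑ n ∈ Finset.Ioc (2 ^ J * a₀) (2 ^ (J + 1) * a₀), (((n : ℝ) + θ : ℝ) : ℂ) ^ s -
              (GG θ s ((2 ^ (J + 1) * a₀ : ℕ) : ℝ) - GG θ s ((2 ^ J * a₀ : ℕ) : ℝ)))‖ := by
            congr 1
            ring
        _ ≤ _ := norm_add_le _ _
        _ ≤ C * ∑ j ∈ range J, r ^ j + C * r ^ J := add_le_add ih (hb.trans h3)
        _ = _ := by ring
  have h1 := key J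
  have h2 : ∑ j ∈ range J, r ^ j ≤ 1 / (1 - r) := by
    rw [geom_sum_eq hr1.ne, ← neg_div_neg_eq, neg_sub, neg_sub]
    apply div_le_div_of_nonneg_right _ (by linarith)
    have := pow_pos hr0 J
    linarith
  have ha1 : (1 : ℝ) ≤ a₀ := by exact_mod_cast ha
  have h3 : ‖GG θ s ((2 ^ J * a₀ : ℕ) : ℝ)‖ ≤ 1 := by
    apply GG_norm hθ _ hσ hτ1
    have : a₀ ≤ 2 ^ J * a₀ := Nat.le_mul_of_pos_left _ (by positivity)
    exact_mod_cast ha.trans this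
  have h4 : ‖GG θ s a₀‖ ≤ 1 := GG_norm hθ ha1 hσ hτ1
  have h5 := norm_sub_le (GG θ s ((2 ^ J * a₀ : ℕ) : ℝ)) (GG θ s a₀)
  have h6 : ‖∑ n ∈ Finset.Ioc a₀ (2 ^ J * a₀), (((n : ℝ) + θ : ℝ) : ℂ) ^ s‖ ≤
      ‖∑ n ∈ Finset.Ioc a₀ (2 ^ J * a₀), (((n : ℝ) + θ : ℝ) : ℂ) ^ s -
      (GG θ s ((2 ^ J * a₀ : ℕ) : ℝ) - GG θ s a₀)‖ +
      ‖GG θ s ((2 ^ J * a₀ : ℕ) : ℝ) - GG θ s a₀‖ := by
    have := norm_add_le (∑ n ∈ Finset.Ioc a₀ (2 ^ J * a₀), (((n : ℝ) + θ : ℝ) : ℂ) ^ s -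
      (GG θ s ((2 ^ J * a₀ : ℕ) : ℝ) - GG θ s a₀)) (GG θ s ((2 ^ J * a₀ : ℕ) : ℝ) - GG θ s a₀)
    simpa using this
  have h7 : C * ∑ j ∈ range J, r ^ j ≤ C / (1 - r) := by
    calc C * ∑ j ∈ range J, r ^ j ≤ C * (1 / (1 - r)) := mul_le_mul_of_nonneg_left h2 hC.le
      _ = C / (1 - r) := by ring
  linarith

/-- grouping by residues -/
theorem group_sum (g : ℕ → ℂ) (W a : ℕ) {M : ℕ} (hM : a ≤ M) :
    ∑ n ∈ Ioc (W * (a + 1)) (W * (M + 1)), g n =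
      ∑ m ∈ Ioc a M, ∑ r ∈ Ioc 0 W, g (W * m + r) := by
  induction M, hM using Nat.le_induction with
  | base => simp
  | succ M hM ih =>
    rw [Finset.sum_Ioc_succ_top (by omega), ← ih,
      ← Finset.sum_Ioc_consecutive g (m := W * (a + 1)) (n := W * (M + 1)) (k := W * (M + 1 + 1))
        (Nat.mul_le_mul_left _ (by omega)) (Nat.mul_le_mul_left _ (by omega))]
    congr 1
    have e : Ioc (W * (M + 1)) (W * (M + 1 + 1)) =
        (Ioc 0 W).map (addLeftEmbedding (W * (M + 1))) := by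
      rw [Finset.map_add_left_Ioc, add_zero, show W * (M + 1 + 1) = W * (M + 1) + W by ring]
    rw [e, Finset.sum_map]
    rfl

theorem head_bound (χn : ℕ → ℂ) (hχ : ∀ n, ‖χn n‖ ≤ 1) {σ : ℝ} (hσ : 0 < σ) (τ : ℝ) (N : ℕ) :
    ‖∑ n ∈ Ioc 0 N, LSeries.term χn ((1 + σ : ℝ) + τ * Complex.I) n‖ ≤ 1 + Real.log N := by
  calc _ ≤ ∑ n ∈ Ioc 0 N, ‖LSeries.term χn ((1 + σ : ℝ) + τ * Complex.I) n‖ := norm_sum_le _ _
    _ ≤ ∑ n ∈ Ioc 0 N, (n : ℝ)⁻¹ := by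
        apply Finset.sum_le_sum
        intro n hn
        rw [mem_Ioc] at hn
        rw [term_eq hσ, norm_mul, norm_mul, norm_nit, mul_one, Complex.norm_real,
          Real.norm_of_nonneg (wt_nonneg _ _)]
        calc ‖χn n‖ * wt σ n ≤ 1 * wt σ n := mul_le_mul_of_nonneg_right (hχ n) (wt_nonneg _ _)
          _ = wt σ n := one_mul _
          _ ≤ 1 / n := wt_le_inv hσ.le hn.1
          _ = (n : ℝ)⁻¹ := one_div _
    _ ≤ 1 + Real.log N := by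
        have h := harmonic_le_one_add_log N
        rw [harmonic_eq_sum_Icc] at h
        push_cast at h
        exact h

/-- residue class block -/
theorem tail_bound {C dl : ℝ} {B : ℕ} (hC : 0 < C) (hdl : 0 < dl)
    (hbe : ∀ (a b : ℕ) (θ σ τ : ℝ), 1 ≤ a → a ≤ b → b ≤ 4 * a →
    0 ≤ θ → θ ≤ 1 → 0 ≤ σ → σ ≤ 1 → |τ| ≤ (a : ℝ) ^ B →
    ‖∑ n ∈ Finset.Ioc a b, (((n : ℝ) + θ : ℝ) : ℂ) ^ (-(1 + σ : ℂ) - τ * Complex.I)
      - ∫ x in (a : ℝ)..b, ((x + θ : ℝ) : ℂ) ^ (-(1 + σ : ℂ) - τ * Complex.I)‖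
      ≤ C * (a : ℝ) ^ (-dl))
    {W : ℕ} (hW : 0 < W) (χ : DirichletCharacter ℂ W)
    {a₀ : ℕ} {σ τ : ℝ} (ha : 1 ≤ a₀) (hσ : 0 < σ) (hσ1 : σ ≤ 1)
    (hτ1 : 1 ≤ |τ|) (hτ : |τ| ≤ (a₀ : ℝ) ^ B) (J : ℕ) :
    ‖∑ n ∈ Ioc (W * (a₀ + 1)) (W * (2 ^ J * a₀ + 1)),
      LSeries.term (fun n => χ n) ((1 + σ : ℝ) + τ * Complex.I) n‖ ≤
      C / (1 - (2 : ℝ) ^ (-dl)) + 2 := by
  set D := C / (1 - (2 : ℝ) ^ (-dl)) + 2 with hD
  have hWr : (0 : ℝ) < W := by exact_mod_cast hW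
  have hW1 : (1 : ℝ) ≤ W := by exact_mod_cast hW
  rw [group_sum _ _ _ (Nat.le_mul_of_pos_left _ (by positivity)), Finset.sum_comm]
  have hr : ∀ r ∈ Ioc 0 W, ‖∑ m ∈ Ioc a₀ (2 ^ J * a₀),
      LSeries.term (fun n => χ n) ((1 + σ : ℝ) + τ * Complex.I) (W * m + r)‖ ≤ (1 / W) * D := by
    intro r hr
    rw [mem_Ioc] at hr
    have hrr : (0 : ℝ) < r := by exact_mod_cast hr.1
    have e : ∀ m ∈ Ioc a₀ (2 ^ J * a₀),
        LSeries.term (fun n => χ n) ((1 + σ : ℝ) + τ * Complex.I) (W * m + r) =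
        (χ r * ((W : ℝ) : ℂ) ^ (-(1 + σ : ℂ) - τ * Complex.I)) *
          (((m : ℝ) + (r : ℝ) / W : ℝ) : ℂ) ^ (-(1 + σ : ℂ) - τ * Complex.I) := by
      intro m _
      have hne : W * m + r ≠ 0 := by omega
      rw [LSeries.term_of_ne_zero hne, div_eq_mul_inv, ← Complex.cpow_neg]
      have e1 : χ ((W * m + r : ℕ) : ZMod W) = χ r := by
        push_cast
        simp
      have e2 : ((W * m + r : ℕ) : ℂ) = ((W : ℝ) : ℂ) * (((m : ℝ) + (r : ℝ) / W : ℝ) : ℂ) := by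
        rw [← Complex.ofReal_mul, ← Complex.ofReal_natCast]
        congr 1
        push_cast
        field_simp
      have e3 : -(((1 + σ : ℝ) : ℂ) + τ * Complex.I) = -(1 + σ : ℂ) - τ * Complex.I := by
        push_cast
        ring
      rw [e1, e2, e3, Complex.mul_cpow_ofReal_nonneg hWr.le (by positivity)]
      ring
    rw [Finset.sum_congr rfl e, ← Finset.mul_sum, norm_mul]
    have h1 : ‖χ r * ((W : ℝ) : ℂ) ^ (-(1 + σ : ℂ) - τ * Complex.I)‖ ≤ 1 / W := by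
      rw [norm_mul, Complex.norm_cpow_eq_rpow_re_of_pos hWr]
      have e4 : (-(1 + σ : ℂ) - τ * Complex.I).re = -(1 + σ) := by simp
      rw [e4]
      calc ‖χ r‖ * (W : ℝ) ^ (-(1 + σ)) ≤ 1 * (W : ℝ) ^ (-(1 + σ)) :=
            mul_le_mul_of_nonneg_right (χ.norm_le_one _) (by positivity)
        _ = wt σ W := by rw [one_mul]; rfl
        _ ≤ 1 / W := wt_le_inv hσ.le hW
    have h2 := dyadic hC hdl hbe (a₀ := a₀) (θ := (r : ℝ) / W) (σ := σ) (τ := τ) ha (by positivity)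
      (by rw [div_le_one hWr]; exact_mod_cast hr.2) hσ.le hσ1 hτ1 hτ J
    exact mul_le_mul h1 h2 (norm_nonneg _) (by positivity)
  calc _ ≤ ∑ r ∈ Ioc 0 W, ‖∑ m ∈ Ioc a₀ (2 ^ J * a₀),
      LSeries.term (fun n => χ n) ((1 + σ : ℝ) + τ * Complex.I) (W * m + r)‖ := norm_sum_le _ _
    _ ≤ ∑ r ∈ Ioc 0 W, (1 / W) * D := Finset.sum_le_sum hr
    _ = D := by
        rw [Finset.sum_const, Nat.card_Ioc, nsmul_eq_mul]
        simp only [tsub_zero]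
        field_simp

theorem L_le {C dl : ℝ} {B : ℕ} (hC : 0 < C) (hdl : 0 < dl)
    (hbe : ∀ (a b : ℕ) (θ σ τ : ℝ), 1 ≤ a → a ≤ b → b ≤ 4 * a →
    0 ≤ θ → θ ≤ 1 → 0 ≤ σ → σ ≤ 1 → |τ| ≤ (a : ℝ) ^ B →
    ‖∑ n ∈ Finset.Ioc a b, (((n : ℝ) + θ : ℝ) : ℂ) ^ (-(1 + σ : ℂ) - τ * Complex.I)
      - ∫ x in (a : ℝ)..b, ((x + θ : ℝ) : ℂ) ^ (-(1 + σ : ℂ) - τ * Complex.I)‖
      ≤ C * (a : ℝ) ^ (-dl))
    {W : ℕ} (hW : 0 < W) (χ : DirichletCharacter ℂ W)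
    {a₀ : ℕ} {σ τ : ℝ} (ha : 1 ≤ a₀) (hσ : 0 < σ) (hσ1 : σ ≤ 1)
    (hτ1 : 1 ≤ |τ|) (hτ : |τ| ≤ (a₀ : ℝ) ^ B) :
    ‖LSeries (fun n => χ n) ((1 + σ : ℝ) + τ * Complex.I)‖ ≤
      (1 + Real.log (W * (a₀ + 1))) + (C / (1 - (2 : ℝ) ^ (-dl)) + 2) := by
  set T := LSeries.term (fun n : ℕ => χ n) ((1 + σ : ℝ) + τ * Complex.I) with hT
  have hsum : Summable T := by
    have := χ.LSeriesSummable_of_one_lt_re (s := ((1 + σ : ℝ) + τ * Complex.I)) (by simp [hσ])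
    exact this
  have ht := hsum.hasSum.tendsto_sum_nat
  have hsub : Tendsto (fun J : ℕ => W * (2 ^ J * a₀ + 1) + 1) atTop atTop := by
    apply tendsto_atTop_mono (f := fun J : ℕ => J) _ tendsto_id
    intro J
    have h1 : J < 2 ^ J := Nat.lt_two_pow_self
    have h2 : 2 ^ J ≤ 2 ^ J * a₀ := Nat.le_mul_of_pos_right _ ha
    have h3 : 2 ^ J * a₀ + 1 ≤ W * (2 ^ J * a₀ + 1) := Nat.le_mul_of_pos_left _ hW
    omega
  have ht2 := (ht.comp hsub).norm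
  have e0 : LSeries (fun n => χ n) ((1 + σ : ℝ) + τ * Complex.I) = ∑' n, T n := rfl
  rw [e0]
  apply le_of_tendsto ht2
  refine Eventually.of_forall fun J => ?_
  simp only [Function.comp_apply]
  have e1 : ∑ n ∈ range (W * (2 ^ J * a₀ + 1) + 1), T n =
      ∑ n ∈ Ioc 0 (W * (2 ^ J * a₀ + 1)), T n := by
    symm
    apply Finset.sum_subset
    · intro n hn
      rw [mem_Ioc] at hn
      rw [mem_range]
      omega
    · intro n hn hn2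
      rw [mem_range] at hn
      rw [mem_Ioc] at hn2
      have : n = 0 := by omega
      subst this
      rw [hT, LSeries.term_zero]
  have hle : W * (a₀ + 1) ≤ W * (2 ^ J * a₀ + 1) := by
    apply Nat.mul_le_mul_left
    have : a₀ ≤ 2 ^ J * a₀ := Nat.le_mul_of_pos_left _ (by positivity)
    omega
  rw [e1, ← Finset.sum_Ioc_consecutive T (Nat.zero_le _) hle]
  refine (norm_add_le _ _).trans ?_
  apply add_le_add
  · have h1 := head_bound (fun n => χ n) (fun n => χ.norm_le_one _) hσ τ (W * (a₀ + 1))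
    have e2 : ((W * (a₀ + 1) : ℕ) : ℝ) = W * (a₀ + 1) := by push_cast; ring
    rw [e2] at h1
    exact h1
  · exact tail_bound hC hdl hbe hW χ ha hσ hσ1 hτ1 hτ J

/-- (A) -/
theorem L_bound (h : StatementBE1) {W : ℕ} (hW : 0 < W) (χ : DirichletCharacter ℂ W) {c : ℝ}
    (hc : 0 < c) : ∃ σ₀ : ℝ, 0 < σ₀ ∧ σ₀ ≤ 1 ∧ ∀ σ : ℝ, 0 < σ → σ ≤ σ₀ → ∀ τ : ℝ, 1 ≤ |τ| →
      |τ| ≤ 6 * Real.exp (1 / σ) →
      ‖LSeries (fun n => χ n) ((1 + σ : ℝ) + τ * Complex.I)‖ ≤ c / σ := by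
  obtain ⟨B, hB⟩ := exists_nat_ge (4 / c)
  obtain ⟨C, dl, hC, hdl, hbe⟩ := h B
  set D := C / (1 - (2 : ℝ) ^ (-dl)) + 2 with hD
  have hD0 : 0 < D := by
    have : (2 : ℝ) ^ (-dl) < 1 := Real.rpow_lt_one_of_one_lt_of_neg (by norm_num) (by linarith)
    have : 0 < C / (1 - (2 : ℝ) ^ (-dl)) := div_pos hC (by linarith)
    linarith
  have hW1 : (1 : ℝ) ≤ W := by exact_mod_cast hW
  have hlW : 0 ≤ Real.log W := Real.log_nonneg hW1
  refine ⟨min (1 / 2) (c / 2 / (D + Real.log W + 3)), lt_min (by norm_num) (by positivity),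
    (min_le_left _ _).trans (by norm_num), ?_⟩
  intro σ hσ hσ0 τ hτ1 hτ
  have hσ1 : σ ≤ 1 / 2 := hσ0.trans (min_le_left _ _)
  have hσ2 : σ ≤ c / 2 / (D + Real.log W + 3) := hσ0.trans (min_le_right _ _)
  set a₀ := ⌈Real.exp (c / 2 / σ)⌉₊ with ha₀
  have hpos : 0 < c / 2 / σ := by positivity
  have ha1 : Real.exp (c / 2 / σ) ≤ a₀ := Nat.le_ceil _
  have ha2 : (a₀ : ℝ) < Real.exp (c / 2 / σ) + 1 := Nat.ceil_lt_add_one (Real.exp_pos _).le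
  have ha3 : 1 < Real.exp (c / 2 / σ) := Real.one_lt_exp_iff.2 hpos
  have ha : 1 ≤ a₀ := by
    have : (1 : ℝ) ≤ a₀ := by linarith
    exact_mod_cast this
  have hτB : |τ| ≤ (a₀ : ℝ) ^ B := by
    have h1 : (6 : ℝ) ≤ Real.exp (1 / σ) := by
      have h2 : (2 : ℝ) ≤ 1 / σ := by rw [le_div_iff₀ hσ]; linarith
      have h3 : Real.exp 2 ≤ Real.exp (1 / σ) := Real.exp_le_exp.2 h2
      have h4 : (6 : ℝ) ≤ Real.exp 2 := by
        have h5 := Real.exp_one_gt_d9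
        have h6 : Real.exp 2 = Real.exp 1 * Real.exp 1 := by rw [← Real.exp_add]; norm_num
        rw [h6]; nlinarith
      linarith
    calc |τ| ≤ 6 * Real.exp (1 / σ) := hτ
      _ ≤ Real.exp (1 / σ) * Real.exp (1 / σ) := mul_le_mul_of_nonneg_right h1 (Real.exp_pos _).le
      _ = Real.exp (2 / σ) := by rw [← Real.exp_add]; congr 1; ring
      _ ≤ Real.exp (B * (c / 2 / σ)) := by
          apply Real.exp_le_exp.2
          rw [div_le_iff₀ hc] at hB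
          have e : (B : ℝ) * (c / 2 / σ) = (B * c / 2) / σ := by ring
          rw [e]
          apply div_le_div_of_nonneg_right _ hσ.le
          linarith
      _ = Real.exp (c / 2 / σ) ^ B := by rw [← Real.exp_nat_mul]
      _ ≤ (a₀ : ℝ) ^ B := pow_le_pow_left₀ (Real.exp_pos _).le ha1 B
  refine (L_le hC hdl hbe hW χ ha hσ (by linarith) hτ1 hτB).trans ?_
  have hl : Real.log (W * (a₀ + 1)) ≤ Real.log W + (c / 2 / σ + 2) := by
    have hWr : (0 : ℝ) < W := by linarith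
    rw [Real.log_mul hWr.ne' (by positivity)]
    have h1 : (a₀ : ℝ) + 1 ≤ Real.exp (c / 2 / σ + 2) := by
      rw [Real.exp_add]
      have h5 := Real.exp_one_gt_d9
      have h6 : Real.exp 2 = Real.exp 1 * Real.exp 1 := by rw [← Real.exp_add]; norm_num
      have h7 : 3 ≤ Real.exp 2 := by rw [h6]; nlinarith
      nlinarith
    have h2 : Real.log ((a₀ : ℝ) + 1) ≤ c / 2 / σ + 2 := by
      rw [Real.log_le_iff_le_exp (by positivity)]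
      exact h1
    linarith
  have hfin : (D + Real.log W + 3) ≤ c / 2 / σ := by
    rw [le_div_iff₀ hσ]
    rw [le_div_iff₀ (by positivity)] at hσ2
    linarith
  have e : c / σ = c / 2 / σ + c / 2 / σ := by ring
  rw [e]
  linarith

end Pool.Agent.H22.MR
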