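import Pool.Agent.H22.MR.Lfun

/-! Bound for the Dirichlet series of `λχ`, for the module [SB] (helper22). -/

set_option autoImplicit false

open Finset Real MeasureTheory Filter

namespace Pool.Agent.H22.MR
open Pool.Agent.H24.MR (tent nit lam StatementBE1)

/-- completely multiplicative summand of `λχ` -/
noncomputable def lhom {W : ℕ} (χ : DirichletCharacter ℂ W) {s : ℂ} (hs : s ≠ 0) : ℕ →*₀ ℂ where
  toFun n := (ArithmeticFunction.liouville n : ℂ) * dirichletSummandHom χ hs n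
  map_zero' := by simp
  map_one' := by simp [ArithmeticFunction.liouville_apply_one]
  map_mul' m n := by
    rw [ArithmeticFunction.liouville_apply_mul, map_mul]
    push_cast
    ring

theorem liouville_norm (n : ℕ) : ‖(ArithmeticFunction.liouville n : ℂ)‖ ≤ 1 := by
  rcases Nat.eq_zero_or_pos n with h0 | h0
  · subst h0; simp
  · rw [ArithmeticFunction.liouville_apply h0.ne']
    push_cast
    rw [norm_pow]
    simp

theorem lhom_norm {W : ℕ} (χ : DirichletCharacter ℂ W) {s : ℂ} (hs : s ≠ 0) (n : ℕ) :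
    ‖lhom χ hs n‖ ≤ ‖dirichletSummandHom χ hs n‖ := by
  change ‖(ArithmeticFunction.liouville n : ℂ) * dirichletSummandHom χ hs n‖ ≤ _
  rw [norm_mul]
  exact mul_le_of_le_one_left (norm_nonneg _) (liouville_norm n)

theorem lhom_prime {W : ℕ} (χ : DirichletCharacter ℂ W) {s : ℂ} (hs : s ≠ 0) (p : Nat.Primes) :
    lhom χ hs p = - dirichletSummandHom χ hs p := by
  change (ArithmeticFunction.liouville (p : ℕ) : ℂ) * dirichletSummandHom χ hs p = _
  rw [ArithmeticFunction.liouville_apply p.prop.ne_zero,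
    ArithmeticFunction.cardFactors_apply_prime p.prop]
  push_cast
  ring

/-- square of the Dirichlet summand -/
noncomputable def shom {W : ℕ} (χ : DirichletCharacter ℂ W) {s : ℂ} (hs : s ≠ 0) : ℕ →*₀ ℂ where
  toFun n := dirichletSummandHom χ hs n * dirichletSummandHom χ hs n
  map_zero' := by simp
  map_one' := by simp
  map_mul' m n := by
    rw [map_mul]
    ring

theorem ds_norm_le' {W : ℕ} (χ : DirichletCharacter ℂ W) {s : ℂ} (hs : 1 < s.re) (n : ℕ) :
    ‖dirichletSummandHom χ (Complex.ne_zero_of_one_lt_re hs) n‖ ≤ 1 / (n : ℝ) := by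
  rcases Nat.eq_zero_or_pos n with h0 | h0
  · subst h0; simp
  have hn : (1 : ℝ) ≤ n := by exact_mod_cast h0
  change ‖χ n * (n : ℂ) ^ (-s)‖ ≤ _
  rw [norm_mul, ← Complex.ofReal_natCast, Complex.norm_cpow_eq_rpow_re_of_pos (by linarith),
    Complex.neg_re]
  calc ‖χ n‖ * (n : ℝ) ^ (-s.re) ≤ 1 * (n : ℝ) ^ (-s.re) :=
        mul_le_mul_of_nonneg_right (χ.norm_le_one _) (by positivity)
    _ = (n : ℝ) ^ (-s.re) := one_mul _
    _ ≤ (n : ℝ) ^ (-1 : ℝ) := Real.rpow_le_rpow_of_exponent_le hn (by linarith)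
    _ = 1 / n := by rw [Real.rpow_neg_one, one_div]

theorem lam_eq {n : ℕ} (hn : n ≠ 0) : (lam n : ℂ) = (ArithmeticFunction.liouville n : ℂ) := by
  unfold lam
  rw [ArithmeticFunction.liouville_apply hn]
  push_cast
  rfl

theorem F_mul_L {W : ℕ} (χ : DirichletCharacter ℂ W) {s : ℂ} (hs : 1 < s.re) :
    ‖LSeries (fun n => (lam n : ℂ) * χ n) s‖ * ‖LSeries (fun n => χ n) s‖ ≤ 2 := by
  have hs0 := Complex.ne_zero_of_one_lt_re hs
  have hsum := summable_dirichletSummand χ hs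
  have hsumf : Summable (fun n => ‖lhom χ hs0 n‖) :=
    Summable.of_nonneg_of_le (fun _ => norm_nonneg _) (lhom_norm χ hs0) hsum
  have hz : Summable (fun n : ℕ => 1 / (n : ℝ) ^ 2) := hasSum_zeta_two.summable
  have hsq : ∀ n, ‖shom χ hs0 n‖ ≤ 1 / (n : ℝ) ^ 2 := by
    intro n
    change ‖dirichletSummandHom χ hs0 n * dirichletSummandHom χ hs0 n‖ ≤ _
    rw [norm_mul]
    have h1 := ds_norm_le' χ hs n
    calc ‖dirichletSummandHom χ hs0 n‖ * ‖dirichletSummandHom χ hs0 n‖ ≤ (1 / (n : ℝ)) * (1 / n) :=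
          mul_le_mul h1 h1 (norm_nonneg _) (by positivity)
      _ = 1 / (n : ℝ) ^ 2 := by rw [div_mul_div_comm, one_mul, sq]
  have hsums : Summable (fun n => ‖shom χ hs0 n‖) :=
    Summable.of_nonneg_of_le (fun _ => norm_nonneg _) hsq hz
  have p1 := EulerProduct.eulerProduct_completely_multiplicative_hasProd hsumf
  have p2 := EulerProduct.eulerProduct_completely_multiplicative_hasProd hsum
  have p3 := EulerProduct.eulerProduct_completely_multiplicative_hasProd hsums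
  have p4 := p1.mul p2
  have e : (fun p : Nat.Primes => (1 - lhom χ hs0 p)⁻¹ * (1 - dirichletSummandHom χ hs0 p)⁻¹) =
      fun p : Nat.Primes => (1 - shom χ hs0 p)⁻¹ := by
    ext p
    rw [← mul_inv]
    congr 1
    rw [lhom_prime]
    change _ = 1 - dirichletSummandHom χ hs0 p * dirichletSummandHom χ hs0 p
    ring
  rw [e] at p4
  have h5 := p4.unique p3
  have e1 : LSeries (fun n => (lam n : ℂ) * χ n) s = ∑' n, lhom χ hs0 n := by
    unfold LSeries
    apply tsum_congr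
    intro n
    rcases Nat.eq_zero_or_pos n with h0 | h0
    · subst h0; simp
    · rw [LSeries.term_of_ne_zero h0.ne', lam_eq h0.ne']
      change _ = (ArithmeticFunction.liouville n : ℂ) * (χ n * (n : ℂ) ^ (-s))
      rw [Complex.cpow_neg]
      ring
  have e2 : LSeries (fun n => χ n) s = ∑' n, dirichletSummandHom χ hs0 n :=
    (tsum_dirichletSummand χ hs).symm
  rw [← norm_mul, e1, e2, h5]
  have h6 : ‖∑' n, shom χ hs0 n‖ ≤ π ^ 2 / 6 := tsum_of_norm_bounded hasSum_zeta_two hsq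
  refine h6.trans ?_
  have := Real.pi_lt_d2
  have := Real.pi_pos
  nlinarith

/-- (C): lower bound near the real point -/
theorem L_lower_near {W : ℕ} [NeZero W] (χ : DirichletCharacter ℂ W) :
    ∃ m : ℝ, 0 < m ∧ ∀ σ : ℝ, 0 < σ → σ ≤ 1 → ∀ τ : ℝ, |τ| ≤ 1 / 2 →
      m ≤ ‖LSeries (fun n => χ n) ((1 + σ : ℝ) + τ * Complex.I)‖ := by
  set K : Set ℂ := Set.Icc (1 : ℝ) 2 ×ℂ Set.Icc (-(1 / 2) : ℝ) (1 / 2) with hK
  have hKc : IsCompact K := isCompact_Icc.reProdIm isCompact_Icc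
  have hKne : K.Nonempty := ⟨1, by rw [hK, Complex.mem_reProdIm]; norm_num⟩
  have hmem : ∀ σ : ℝ, 0 < σ → σ ≤ 1 → ∀ τ : ℝ, |τ| ≤ 1 / 2 →
      (((1 + σ : ℝ) : ℂ) + τ * Complex.I) ∈ K := by
    intro σ hσ hσ1 τ hτ
    rw [abs_le] at hτ
    rw [hK, Complex.mem_reProdIm]
    simp only [Complex.add_re, Complex.ofReal_re, Complex.mul_re, Complex.I_re, mul_zero,
      Complex.ofReal_im, Complex.I_im, mul_one, sub_self, add_zero, Set.mem_Icc, Complex.add_im,
      Complex.mul_im, zero_add]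
    exact ⟨⟨by linarith, by linarith⟩, by linarith [hτ.1], hτ.2⟩
  have key : ∀ H : ℂ → ℂ, Continuous H → (∀ s ∈ K, H s ≠ 0) → ∃ m : ℝ, 0 < m ∧ ∀ s ∈ K, m ≤ ‖H s‖ := by
    intro H hH hne
    obtain ⟨s₀, hs₀, hmin⟩ := hKc.exists_isMinOn hKne hH.norm.continuousOn
    exact ⟨‖H s₀‖, norm_pos_iff.2 (hne s₀ hs₀), fun s hs => hmin hs⟩
  by_cases hχ : χ = 1
  · subst hχ
    obtain ⟨m, hm, hmK⟩ := key (DirichletCharacter.LFunctionTrivChar₁ W)
      (DirichletCharacter.differentiable_LFunctionTrivChar₁ W).continuous (by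
        intro s hs
        rcases eq_or_ne s 1 with h1 | h1
        · subst h1
          exact DirichletCharacter.LFunctionTrivChar₁_apply_one_ne_zero W
        · rw [DirichletCharacter.LFunctionTrivChar₁, Function.update_of_ne h1]
          apply mul_ne_zero (sub_ne_zero_of_ne h1)
          rw [hK, Complex.mem_reProdIm] at hs
          exact DirichletCharacter.LFunction_ne_zero_of_one_le_re 1 (Or.inr h1) hs.1.1)
    refine ⟨m / 2, by positivity, ?_⟩
    intro σ hσ hσ1 τ hτ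
    have h1 := hmK _ (hmem σ hσ hσ1 τ hτ)
    set s : ℂ := ((1 + σ : ℝ) : ℂ) + τ * Complex.I with hs
    have hre : 1 < s.re := by rw [hs, re_eq]; linarith
    have hs1 : s ≠ 1 := by
      intro h
      rw [h, Complex.one_re] at hre
      exact lt_irrefl _ hre
    rw [DirichletCharacter.LFunctionTrivChar₁, Function.update_of_ne hs1, norm_mul,
      DirichletCharacter.LFunctionTrivChar, DirichletCharacter.LFunction_eq_LSeries 1 hre] at h1
    have h2 : ‖s - 1‖ ≤ 2 := by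
      have e : s - 1 = (σ : ℂ) + τ * Complex.I := by rw [hs]; push_cast; ring
      rw [e]
      calc _ ≤ ‖(σ : ℂ)‖ + ‖τ * Complex.I‖ := norm_add_le _ _
        _ = |σ| + |τ| := by simp
        _ ≤ 2 := by rw [abs_of_pos hσ]; linarith
    have h3 := mul_le_mul_of_nonneg_right h2
      (norm_nonneg (LSeries (fun n => (1 : DirichletCharacter ℂ W) n) s))
    linarith
  · obtain ⟨m, hm, hmK⟩ := key (DirichletCharacter.LFunction χ)
      (DirichletCharacter.differentiable_LFunction hχ).continuous (by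
        intro s hs
        rw [hK, Complex.mem_reProdIm] at hs
        exact DirichletCharacter.LFunction_ne_zero_of_one_le_re χ (Or.inl hχ) hs.1.1)
    refine ⟨m, hm, ?_⟩
    intro σ hσ hσ1 τ hτ
    have h1 := hmK _ (hmem σ hσ hσ1 τ hτ)
    rwa [DirichletCharacter.LFunction_eq_LSeries χ (by rw [re_eq]; linarith)] at h1

/-- (B)+(C)+(D) -/
theorem F_bound (h : StatementBE1) {W : ℕ} (hW : 0 < W) (χ : DirichletCharacter ℂ W) {e₁ : ℝ}
    (he₁ : 0 < e₁) : ∃ σ₀ : ℝ, 0 < σ₀ ∧ σ₀ ≤ 1 ∧ ∀ σ : ℝ, 0 < σ → σ ≤ σ₀ → ∀ τ : ℝ,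
      |τ| ≤ 3 * Real.exp (1 / σ) →
      ‖LSeries (fun n => (lam n : ℂ) * χ n) ((1 + σ : ℝ) + τ * Complex.I)‖ ≤ e₁ / σ := by
  have : NeZero W := ⟨hW.ne'⟩
  obtain ⟨m, hm, hnear⟩ := L_lower_near χ
  set c := e₁ ^ 4 / 6912 with hc
  have hc0 : 0 < c := by positivity
  obtain ⟨σ₁, hσ₁, hσ₁1, hL⟩ := L_bound h hW (χ ^ 2) hc0
  refine ⟨min σ₁ (e₁ * m / 2), lt_min hσ₁ (by positivity), (min_le_left _ _).trans hσ₁1, ?_⟩
  intro σ hσ hσ0 τ hτ
  have hσ2 : σ ≤ σ₁ := hσ0.trans (min_le_left _ _)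
  have hσ3 : σ ≤ e₁ * m / 2 := hσ0.trans (min_le_right _ _)
  have hσ1 : σ ≤ 1 := hσ2.trans hσ₁1
  have hFL := F_mul_L χ (s := ((1 + σ : ℝ) : ℂ) + τ * Complex.I) (by rw [re_eq]; linarith)
  rcases le_or_gt |τ| (1 / 2) with hτ2 | hτ2
  · have h1 := hnear σ hσ hσ1 τ hτ2
    set F := ‖LSeries (fun n => (lam n : ℂ) * χ n) ((1 + σ : ℝ) + τ * Complex.I)‖ with hF
    set L := ‖LSeries (fun n => χ n) ((1 + σ : ℝ) + τ * Complex.I)‖ with hLd
    have hF0 : 0 ≤ F := norm_nonneg _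
    have h2 : F * m ≤ 2 := (mul_le_mul_of_nonneg_left h1 hF0).trans hFL
    rw [le_div_iff₀ hσ]
    calc F * σ ≤ F * (e₁ * m / 2) := mul_le_mul_of_nonneg_left hσ3 hF0
      _ = (F * m) * (e₁ / 2) := by ring
      _ ≤ 2 * (e₁ / 2) := mul_le_mul_of_nonneg_right h2 (by positivity)
      _ = e₁ := by ring
  · have h341 := DirichletCharacter.norm_LSeries_product_ge_one χ hσ τ
    have a1 : (1 + (σ : ℂ)) = ((1 + σ : ℝ) : ℂ) + (0 : ℝ) * Complex.I := by push_cast; ring
    have a2 : (1 + (σ : ℂ) + Complex.I * τ) = ((1 + σ : ℝ) : ℂ) + τ * Complex.I := by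
      push_cast; ring
    have a3 : (1 + (σ : ℂ) + 2 * Complex.I * τ) = ((1 + σ : ℝ) : ℂ) + (2 * τ : ℝ) * Complex.I := by
      push_cast; ring
    rw [a2, a3, a1, norm_mul, norm_mul, norm_pow, norm_pow] at h341
    have h0 : ‖LSeries (fun n => (1 : DirichletCharacter ℂ W) n)
        (((1 + σ : ℝ) : ℂ) + (0 : ℝ) * Complex.I)‖ ≤ 6 / σ := by
      rw [lseries_eq hσ]
      have hb : ∀ n : ℕ, ‖(1 : DirichletCharacter ℂ W) n * (wt σ n : ℂ)‖ ≤ wt σ n := by
        intro n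
        rw [norm_mul, Complex.norm_real, Real.norm_of_nonneg (wt_nonneg _ _)]
        exact mul_le_of_le_one_left (wt_nonneg _ _) (DirichletCharacter.norm_le_one _ _)
      have hs := Summable.of_nonneg_of_le (fun _ => norm_nonneg _) hb (one_tsum hσ hσ1).1
      exact (ds_norm_le hs 0).trans ((hs.tsum_le_tsum hb (one_tsum hσ hσ1).1).trans
        (one_tsum hσ hσ1).2)
    have h2 := hL σ hσ hσ2 (2 * τ) (by rw [abs_mul, abs_of_pos (by norm_num : (0 : ℝ) < 2)]; linarith)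
      (by rw [abs_mul, abs_of_pos (by norm_num : (0 : ℝ) < 2)]; linarith)
    set F := ‖LSeries (fun n => (lam n : ℂ) * χ n) ((1 + σ : ℝ) + τ * Complex.I)‖ with hF
    set L := ‖LSeries (fun n => χ n) ((1 + σ : ℝ) + τ * Complex.I)‖ with hLd
    set L0 := ‖LSeries (fun n => (1 : DirichletCharacter ℂ W) n)
        (((1 + σ : ℝ) : ℂ) + (0 : ℝ) * Complex.I)‖ with hL0
    set L2 := ‖LSeries (fun n => (χ ^ 2) n) (((1 + σ : ℝ) : ℂ) + (2 * τ : ℝ) * Complex.I)‖ with hL2
    have hF0 : 0 ≤ F := norm_nonneg _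
    have hLn : 0 ≤ L := norm_nonneg _
    have hL0n : 0 ≤ L0 := norm_nonneg _
    have hL2n : 0 ≤ L2 := norm_nonneg _
    have h3 : 1 ≤ (6 / σ) ^ 3 * L ^ 4 * (c / σ) := by
      refine le_trans h341 ?_
      apply mul_le_mul _ h2 hL2n (by positivity)
      exact mul_le_mul_of_nonneg_right (pow_le_pow_left₀ hL0n h0 3) (by positivity)
    by_contra hcon
    push Not at hcon
    have h4 : F ^ 4 * L ^ 4 ≤ 16 := by
      rw [← mul_pow]
      calc (F * L) ^ 4 ≤ 2 ^ 4 := pow_le_pow_left₀ (mul_nonneg hF0 hLn) hFL 4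
        _ = 16 := by norm_num
    have h5 : (e₁ / σ) ^ 4 ≤ F ^ 4 := pow_le_pow_left₀ (by positivity) hcon.le 4
    have h6 : (e₁ / σ) ^ 4 * L ^ 4 ≤ 16 :=
      (mul_le_mul_of_nonneg_right h5 (by positivity)).trans h4
    have h7 : (6 / σ) ^ 3 * L ^ 4 * (c / σ) = ((e₁ / σ) ^ 4 * L ^ 4) / 32 := by
      rw [hc]
      field_simp
      ring
    rw [h7] at h3
    linarith

end Pool.Agent.H22.MR
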