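import Pool.Agent.H22.MR.Four

/-! The recursion for the module [SB] (helper22). -/

set_option autoImplicit false

open Finset Real MeasureTheory
open scoped ArithmeticFunction.vonMangoldt

namespace Pool.Agent.H22.MR
open Pool.Agent.H24.MR (tent nit)

theorem term_eq {σ : ℝ} (hσ : 0 < σ) (h : ℕ → ℂ) (τ : ℝ) (n : ℕ) :
    LSeries.term h ((1 + σ : ℝ) + τ * Complex.I) n = h n * (wt σ n : ℂ) * nit n τ := by
  rcases Nat.eq_zero_or_pos n with h0 | h0
  · subst h0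
    rw [LSeries.term_zero, wt_zero hσ]
    simp
  rw [LSeries.term_of_ne_zero h0.ne']
  have hn0 : (0 : ℝ) < n := by exact_mod_cast h0
  have hnc : (n : ℂ) ≠ 0 := by exact_mod_cast h0.ne'
  rw [div_eq_mul_inv, ← Complex.cpow_neg, mul_assoc]
  congr 1
  unfold wt nit
  rw [Complex.ofReal_cpow hn0.le, Complex.ofReal_natCast, Complex.cpow_def_of_ne_zero hnc,
    Complex.cpow_def_of_ne_zero hnc, ← Complex.exp_add]
  congr 1
  push_cast
  ring

theorem lseries_eq {σ : ℝ} (hσ : 0 < σ) (h : ℕ → ℂ) (τ : ℝ) :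
    LSeries h ((1 + σ : ℝ) + τ * Complex.I) = DS (fun n => h n * (wt σ n : ℂ)) τ := by
  unfold LSeries DS
  exact tsum_congr fun n => term_eq hσ h τ n

theorem summable_of_lss {σ : ℝ} (hσ : 0 < σ) {h : ℕ → ℂ}
    (hs : LSeriesSummable h ((1 + σ : ℝ) + (0 : ℝ) * Complex.I)) :
    Summable (fun n => ‖h n * (wt σ n : ℂ)‖) := by
  have h1 : Summable (fun n => ‖LSeries.term h ((1 + σ : ℝ) + (0 : ℝ) * Complex.I) n‖) := hs.norm
  refine h1.congr fun n => ?_
  rw [term_eq hσ h 0 n, norm_mul _ (nit n 0), norm_nit, mul_one]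

theorem re_eq (σ τ : ℝ) : (((1 + σ : ℝ) : ℂ) + τ * Complex.I).re = 1 + σ := by simp

theorem conv_one {f : ℕ → ℂ} (hf : ∀ m n, m ≠ 0 → n ≠ 0 → f (m * n) = f m * f n) :
    LSeries.convolution f (fun n => (Λ n : ℂ) * f n) = LSeries.logMul f := by
  rw [LSeries.convolution_def]
  ext n
  rcases Nat.eq_zero_or_pos n with h0 | h0
  · subst h0
    simp [LSeries.logMul]
  have h1 : ∀ p ∈ n.divisorsAntidiagonal, f p.1 * ((Λ p.2 : ℂ) * f p.2) = (Λ p.2 : ℂ) * f n := by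
    intro p hp
    have h2 := (Nat.mem_divisorsAntidiagonal.1 hp).1
    have h3 := Nat.ne_zero_of_mul_ne_zero_left (h2 ▸ h0.ne')
    have h3' : p.1 * p.2 ≠ 0 := h2 ▸ h0.ne'
    rw [← h2, hf _ _ (left_ne_zero_of_mul h3') (right_ne_zero_of_mul h3')]
    ring
  rw [Finset.sum_congr rfl h1, ← Finset.sum_mul]
  unfold LSeries.logMul
  congr 1
  rw [Nat.sum_divisorsAntidiagonal' (fun _ j => (Λ j : ℂ)), ← Complex.ofReal_sum,
    ArithmeticFunction.vonMangoldt_sum, Complex.natCast_log]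

theorem logMul_conv (g h : ℕ → ℂ) :
    LSeries.logMul (LSeries.convolution g h) =
      LSeries.convolution (LSeries.logMul g) h + LSeries.convolution g (LSeries.logMul h) := by
  rw [LSeries.convolution_def, LSeries.convolution_def, LSeries.convolution_def]
  ext n
  simp only [LSeries.logMul, Pi.add_apply]
  rw [Finset.mul_sum, ← Finset.sum_add_distrib]
  apply Finset.sum_congr rfl
  intro p hp
  obtain ⟨h2, h3⟩ := Nat.mem_divisorsAntidiagonal.1 hp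
  have h3' : p.1 * p.2 ≠ 0 := h2 ▸ h3
  have h4 : Complex.log (n : ℂ) = Complex.log (p.1 : ℂ) + Complex.log (p.2 : ℂ) := by
    rw [← h2, ← Complex.natCast_log, ← Complex.natCast_log, ← Complex.natCast_log,
      ← Complex.ofReal_add, Nat.cast_mul, Real.log_mul]
    · exact_mod_cast left_ne_zero_of_mul h3'
    · exact_mod_cast right_ne_zero_of_mul h3'
  rw [h4]
  ring

theorem log2_eq {f : ℕ → ℂ} (hf : ∀ m n, m ≠ 0 → n ≠ 0 → f (m * n) = f m * f n) :
    LSeries.logMul (LSeries.logMul f) =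
      LSeries.convolution (LSeries.convolution f (fun n => (Λ n : ℂ) * f n))
        (fun n => (Λ n : ℂ) * f n) +
      LSeries.convolution f (LSeries.logMul (fun n => (Λ n : ℂ) * f n)) := by
  conv_lhs => rw [← conv_one hf]
  rw [logMul_conv, conv_one hf]

variable {f : ℕ → ℂ}

theorem absc_f (hf1 : ∀ n, ‖f n‖ ≤ 1) : LSeries.abscissaOfAbsConv f ≤ 1 :=
  LSeries.abscissaOfAbsConv_le_of_le_const ⟨1, fun n _ => hf1 n⟩

theorem absc_vM (hf1 : ∀ n, ‖f n‖ ≤ 1) :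
    LSeries.abscissaOfAbsConv (fun n => (Λ n : ℂ) * f n) ≤ 1 := by
  have h := LSeries.abscissaOfAbsConv_le_of_forall_lt_LSeriesSummable (x := 1)
    (f := fun n => (Λ n : ℂ) * f n) (fun y hy => by
      have h1 : LSeriesSummable (fun n => (Λ n : ℂ)) (y : ℂ) :=
        ArithmeticFunction.LSeriesSummable_vonMangoldt (by simpa using hy)
      have h2 : Summable (fun n => ‖LSeries.term (fun n => (Λ n : ℂ)) (y : ℂ) n‖) := h1.norm
      apply Summable.of_norm_bounded h2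
      intro n
      apply LSeries.norm_term_le
      rw [norm_mul]
      exact mul_le_of_le_one_right (norm_nonneg _) (hf1 n))
  exact_mod_cast h

theorem lt_re {σ : ℝ} (hσ : 0 < σ) (τ : ℝ) {a : EReal} (ha : a ≤ 1) :
    a < (((1 + σ : ℝ) : ℂ) + τ * Complex.I).re := by
  rw [re_eq]
  refine lt_of_le_of_lt ha ?_
  have : (1 : ℝ) < 1 + σ := by linarith
  exact_mod_cast this

section
variable {σ : ℝ}

/-- coefficient sequences -/
noncomputable def u0 (f : ℕ → ℂ) (σ : ℝ) (n : ℕ) : ℂ := f n * (wt σ n : ℂ)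
noncomputable def ud (f : ℕ → ℂ) (σ : ℝ) (n : ℕ) : ℂ := ((Λ n : ℂ) * f n) * (wt σ n : ℂ)
noncomputable def ug (f : ℕ → ℂ) (σ : ℝ) (n : ℕ) : ℂ :=
  LSeries.logMul (fun n => (Λ n : ℂ) * f n) n * (wt σ n : ℂ)
noncomputable def u2 (f : ℕ → ℂ) (σ : ℝ) (n : ℕ) : ℂ :=
  LSeries.logMul (LSeries.logMul f) n * (wt σ n : ℂ)

theorem sum_u0 (hσ : 0 < σ) (hf1 : ∀ n, ‖f n‖ ≤ 1) : Summable (fun n => ‖u0 f σ n‖) :=
  summable_of_lss hσ (LSeriesSummable_of_abscissaOfAbsConv_lt_re (lt_re hσ 0 (absc_f hf1)))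

theorem sum_ud (hσ : 0 < σ) (hf1 : ∀ n, ‖f n‖ ≤ 1) : Summable (fun n => ‖ud f σ n‖) :=
  summable_of_lss hσ (LSeriesSummable_of_abscissaOfAbsConv_lt_re (lt_re hσ 0 (absc_vM hf1)))

theorem sum_ug (hσ : 0 < σ) (hf1 : ∀ n, ‖f n‖ ≤ 1) : Summable (fun n => ‖ug f σ n‖) :=
  summable_of_lss hσ (LSeriesSummable_of_abscissaOfAbsConv_lt_re (lt_re hσ 0 (by
    rw [LSeries.abscissaOfAbsConv_logMul]; exact absc_vM hf1)))

theorem sum_u2 (hσ : 0 < σ) (hf1 : ∀ n, ‖f n‖ ≤ 1) : Summable (fun n => ‖u2 f σ n‖) :=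
  summable_of_lss hσ (LSeriesSummable_of_abscissaOfAbsConv_lt_re (lt_re hσ 0 (by
    rw [LSeries.abscissaOfAbsConv_logMul, LSeries.abscissaOfAbsConv_logMul]; exact absc_f hf1)))

theorem ds_identity (hσ : 0 < σ) (hf : ∀ m n, m ≠ 0 → n ≠ 0 → f (m * n) = f m * f n)
    (hf1 : ∀ n, ‖f n‖ ≤ 1) (τ : ℝ) :
    DS (u2 f σ) τ = DS (u0 f σ) τ * DS (ud f σ) τ ^ 2 + DS (ug f σ) τ * DS (u0 f σ) τ := by
  have e0 : DS (u0 f σ) τ = LSeries f ((1 + σ : ℝ) + τ * Complex.I) := (lseries_eq hσ _ τ).symm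
  have e1 : DS (ud f σ) τ = LSeries (fun n => (Λ n : ℂ) * f n) ((1 + σ : ℝ) + τ * Complex.I) :=
    (lseries_eq hσ _ τ).symm
  have e2 : DS (ug f σ) τ =
      LSeries (LSeries.logMul (fun n => (Λ n : ℂ) * f n)) ((1 + σ : ℝ) + τ * Complex.I) :=
    (lseries_eq hσ _ τ).symm
  have e3 : DS (u2 f σ) τ =
      LSeries (LSeries.logMul (LSeries.logMul f)) ((1 + σ : ℝ) + τ * Complex.I) :=
    (lseries_eq hσ _ τ).symm
  have s0 : LSeriesSummable f ((1 + σ : ℝ) + τ * Complex.I) :=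
    LSeriesSummable_of_abscissaOfAbsConv_lt_re (lt_re hσ τ (absc_f hf1))
  have s1 : LSeriesSummable (fun n => (Λ n : ℂ) * f n) ((1 + σ : ℝ) + τ * Complex.I) :=
    LSeriesSummable_of_abscissaOfAbsConv_lt_re (lt_re hσ τ (absc_vM hf1))
  have s2 : LSeriesSummable (LSeries.logMul (fun n => (Λ n : ℂ) * f n))
      ((1 + σ : ℝ) + τ * Complex.I) :=
    LSeriesSummable_of_abscissaOfAbsConv_lt_re (lt_re hσ τ (by
      rw [LSeries.abscissaOfAbsConv_logMul]; exact absc_vM hf1))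
  rw [e0, e1, e2, e3, log2_eq hf, LSeries_add ((s0.convolution s1).convolution s1)
    (s0.convolution s2), LSeries_convolution' (s0.convolution s1) s1,
    LSeries_convolution' s0 s1, LSeries_convolution' s0 s2]
  ring

/-- the second part of the recursion -/
theorem second_part (hσ : 0 < σ) (hf1 : ∀ n, ‖f n‖ ≤ 1) (y : ℝ) :
    HasSum (fun n => ug f σ n * cc (u0 f σ) (y - Real.log n))
      (∫ τ : ℝ, (ker τ : ℂ) * ((DS (ug f σ) τ * DS (u0 f σ) τ) * ee τ y)) := by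
  have h := exchange (sum_ug hσ hf1) (Φ := fun τ => DS (u0 f σ) τ * ee τ y)
    ((ds_cont (sum_u0 hσ hf1)).mul (ee_cont y)) (B := ∑' n, ‖u0 f σ n‖) (fun τ => by
      rw [norm_mul, norm_ee, mul_one]; exact ds_norm_le (sum_u0 hσ hf1) τ)
  simp_rw [← mul_assoc] at h ⊢
  convert h using 4 with n
  rw [← four_one (sum_u0 hσ hf1)]
  congr 1
  ext τ
  rw [sub_eq_add_neg, ee_add, ← nit_eq]
  ring

end

end Pool.Agent.H22.MR
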