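import Pool.Agent.H22.MR.Rec

/-! The recursion inequality for the module [SB] (helper22). -/

set_option autoImplicit false

open Finset Real MeasureTheory
open scoped ArithmeticFunction.vonMangoldt

namespace Pool.Agent.H22.MR
open Pool.Agent.H24.MR (tent nit)

variable {f : ℕ → ℂ} {σ : ℝ}

theorem u0_norm (hf1 : ∀ n, ‖f n‖ ≤ 1) (n : ℕ) : ‖u0 f σ n‖ ≤ wt σ n := by
  unfold u0
  rw [norm_mul, Complex.norm_real, Real.norm_of_nonneg (wt_nonneg _ _)]
  exact mul_le_of_le_one_left (wt_nonneg _ _) (hf1 n)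

theorem ud_norm (hf1 : ∀ n, ‖f n‖ ≤ 1) (n : ℕ) : ‖ud f σ n‖ ≤ Λ n * wt σ n := by
  unfold ud
  rw [norm_mul, norm_mul, Complex.norm_real, Complex.norm_real,
    Real.norm_of_nonneg (wt_nonneg _ _),
    Real.norm_of_nonneg ArithmeticFunction.vonMangoldt_nonneg]
  apply mul_le_mul_of_nonneg_right _ (wt_nonneg _ _)
  exact mul_le_of_le_one_right ArithmeticFunction.vonMangoldt_nonneg (hf1 n)

theorem ug_norm (hf1 : ∀ n, ‖f n‖ ≤ 1) (n : ℕ) : ‖ug f σ n‖ ≤ Λ n * Real.log n * wt σ n := by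
  have h0 : 0 ≤ Real.log n := Real.log_natCast_nonneg n
  unfold ug LSeries.logMul
  rw [norm_mul, norm_mul, norm_mul, Complex.norm_real, Complex.norm_real, ← Complex.natCast_log,
    Complex.norm_real, Real.norm_of_nonneg (wt_nonneg _ _), Real.norm_of_nonneg h0,
    Real.norm_of_nonneg ArithmeticFunction.vonMangoldt_nonneg]
  apply mul_le_mul_of_nonneg_right _ (wt_nonneg _ _)
  calc Real.log n * (Λ n * ‖f n‖) ≤ Real.log n * (Λ n * 1) := by
        apply mul_le_mul_of_nonneg_left _ h0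
        exact mul_le_mul_of_nonneg_left (hf1 n) ArithmeticFunction.vonMangoldt_nonneg
    _ = Λ n * Real.log n := by ring

theorem cc_le_nine (hσ : 0 < σ) (hσ1 : σ ≤ 1) (hf1 : ∀ n, ‖f n‖ ≤ 1) (y : ℝ) :
    ‖cc (u0 f σ) y‖ ≤ 9 := by
  refine (cc_norm_le (u0_norm hf1) (one_tsum hσ hσ1).1 y).trans ?_
  have h := (window_one hσ (Real.exp_pos y)).2
  rwa [Real.log_exp] at h

/-- mean square of the Dirichlet series of `Λ f` -/
theorem ud_ms (hσ : 0 < σ) (hσ1 : σ ≤ 1) (hf1 : ∀ n, ‖f n‖ ≤ 1) :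
    ∫ τ : ℝ, ker τ * ‖DS (ud f σ) τ‖ ^ 2 ≤ 54 * (36 / σ) := by
  apply four_two (ud_norm hf1) (vM_tsum hσ hσ1).1 (A := 54) (B := 36 / σ) _ (vM_tsum hσ hσ1).2
  intro m
  rcases Nat.eq_zero_or_pos m with h0 | h0
  · subst h0
    have h := (window_vM hσ (one_pos)).2
    simpa using h
  · exact (window_vM hσ (by exact_mod_cast h0)).2

theorem cc_eq_zero {y : ℝ} (hy : y < -1) : cc (u0 f σ) y = 0 := by
  unfold cc
  have h : ∀ n : ℕ, u0 f σ n * (tent (Real.log n - y) : ℂ) = 0 := by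
    intro n
    have h1 : 0 ≤ Real.log n := Real.log_natCast_nonneg n
    rw [tent_eq_zero (by rw [abs_of_nonneg (by linarith)]; linarith)]
    simp
  simp_rw [h]
  exact tsum_zero

/-- left hand side of the recursion -/
theorem lhs_diff (hσ : 0 < σ) (hf1 : ∀ n, ‖f n‖ ≤ 1) {y : ℝ} (hy : 0 ≤ y) :
    ‖cc (u2 f σ) y - (y ^ 2 : ℝ) * cc (u0 f σ) y‖ ≤ 9 * (2 * y + 1) := by
  have h1 := cc_summable (sum_u2 hσ hf1) y
  have h2 := cc_summable (sum_u0 hσ hf1) y
  unfold cc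
  rw [← tsum_mul_left, ← h1.tsum_sub (h2.mul_left _)]
  have h3 := window_one hσ (Real.exp_pos y)
  rw [Real.log_exp] at h3
  have h4 : ‖∑' n : ℕ, (u2 f σ n * (tent (Real.log n - y) : ℂ) -
      ((y ^ 2 : ℝ) : ℂ) * (u0 f σ n * (tent (Real.log n - y) : ℂ)))‖ ≤
      (∑' n : ℕ, wt σ n * tent (Real.log n - y)) * (2 * y + 1) := by
    apply tsum_of_norm_bounded (h3.1.hasSum.mul_right _)
    intro n
    have e : u2 f σ n * (tent (Real.log n - y) : ℂ) -
      ((y ^ 2 : ℝ) : ℂ) * (u0 f σ n * (tent (Real.log n - y) : ℂ)) =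
      (((Real.log n ^ 2 - y ^ 2) * tent (Real.log n - y) : ℝ) : ℂ) * u0 f σ n := by
      unfold u2 u0 LSeries.logMul
      rw [← Complex.natCast_log]
      push_cast
      ring
    rw [e, norm_mul, Complex.norm_real, norm_mul, Real.norm_of_nonneg (tent_nonneg _)]
    have h5 : ‖Real.log n ^ 2 - y ^ 2‖ * tent (Real.log n - y) ≤
        (2 * y + 1) * tent (Real.log n - y) := by
      by_cases ht : tent (Real.log n - y) = 0
      · rw [ht]; simp
      · apply mul_le_mul_of_nonneg_right _ (tent_nonneg _)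
        have h6 : |Real.log n - y| < 1 := by
          by_contra hcon
          push Not at hcon
          exact ht (tent_eq_zero hcon)
        have h7 : 0 ≤ Real.log n := Real.log_natCast_nonneg n
        rw [Real.norm_eq_abs, show Real.log n ^ 2 - y ^ 2 = (Real.log n - y) * (Real.log n + y) by ring,
          abs_mul, abs_of_nonneg (by linarith : 0 ≤ Real.log n + y)]
        have h8 := (abs_lt.1 h6).2
        calc |Real.log n - y| * (Real.log n + y) ≤ 1 * (Real.log n + y) :=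
              mul_le_mul_of_nonneg_right h6.le (by linarith)
          _ ≤ 2 * y + 1 := by linarith
    calc ‖Real.log n ^ 2 - y ^ 2‖ * tent (Real.log n - y) * ‖u0 f σ n‖
        ≤ ((2 * y + 1) * tent (Real.log n - y)) * wt σ n :=
          mul_le_mul h5 (u0_norm hf1 n) (norm_nonneg _)
            (mul_nonneg (by linarith) (tent_nonneg _))
      _ = wt σ n * tent (Real.log n - y) * (2 * y + 1) := by ring
  refine h4.trans ?_
  exact mul_le_mul_of_nonneg_right h3.2 (by linarith)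

/-- bound for the first part -/
theorem first_part (f : ℕ → ℂ) (σ y : ℝ) :
    ‖∫ τ : ℝ, (ker τ : ℂ) * ((DS (u0 f σ) τ * DS (ud f σ) τ ^ 2) * ee τ y)‖ ≤
      ∫ τ : ℝ, ker τ * (‖DS (u0 f σ) τ‖ * ‖DS (ud f σ) τ‖ ^ 2) := by
  refine (norm_integral_le_integral_norm _).trans (le_of_eq ?_)
  congr 1
  ext τ
  rw [norm_mul, norm_mul, norm_mul, norm_pow, norm_ee, Complex.norm_real,
    Real.norm_of_nonneg (ker_nonneg τ), mul_one]

theorem rec_ineq (hσ : 0 < σ) (hf : ∀ m n, m ≠ 0 → n ≠ 0 → f (m * n) = f m * f n)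
    (hf1 : ∀ n, ‖f n‖ ≤ 1) {y : ℝ} (hy : 0 ≤ y) {R : ℝ}
    (hR : ∀ N : ℕ, ∑ n ∈ range N,
      Λ n * Real.log n * wt σ n * ‖cc (u0 f σ) (y - Real.log n)‖ ≤ R) :
    y ^ 2 * ‖cc (u0 f σ) y‖ ≤
      (∫ τ : ℝ, ker τ * (‖DS (u0 f σ) τ‖ * ‖DS (ud f σ) τ‖ ^ 2)) + R + 9 * (2 * y + 1) := by
  have h1 := lhs_diff hσ hf1 hy
  have h2 := four_one (sum_u2 hσ hf1) y
  have s0 := sum_u0 hσ hf1
  have sd := sum_ud hσ hf1
  have sg := sum_ug hσ hf1
  have e : ∀ τ : ℝ, (ker τ : ℂ) * (DS (u2 f σ) τ * ee τ y) =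
      (ker τ : ℂ) * ((DS (u0 f σ) τ * DS (ud f σ) τ ^ 2) * ee τ y) +
      (ker τ : ℂ) * ((DS (ug f σ) τ * DS (u0 f σ) τ) * ee τ y) := by
    intro τ
    rw [ds_identity hσ hf hf1 τ]
    ring
  simp_rw [e] at h2
  have i1 : Integrable (fun τ : ℝ => (ker τ : ℂ) * ((DS (u0 f σ) τ * DS (ud f σ) τ ^ 2) * ee τ y)) := by
    apply ker_mul_int (((ds_cont s0).mul ((ds_cont sd).pow 2)).mul (ee_cont y))
      (B := (∑' n, ‖u0 f σ n‖) * (∑' n, ‖ud f σ n‖) ^ 2)
    intro τ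
    simp only [Pi.mul_apply, Pi.pow_apply]
    rw [norm_mul, norm_ee, mul_one, norm_mul, norm_pow]
    exact mul_le_mul (ds_norm_le s0 τ) (pow_le_pow_left₀ (norm_nonneg _) (ds_norm_le sd τ) 2)
      (by positivity) (tsum_nonneg fun n => norm_nonneg _)
  have i2 : Integrable (fun τ : ℝ => (ker τ : ℂ) * ((DS (ug f σ) τ * DS (u0 f σ) τ) * ee τ y)) := by
    apply ker_mul_int (((ds_cont sg).mul (ds_cont s0)).mul (ee_cont y))
      (B := (∑' n, ‖ug f σ n‖) * (∑' n, ‖u0 f σ n‖))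
    intro τ
    simp only [Pi.mul_apply]
    rw [norm_mul, norm_ee, mul_one, norm_mul]
    exact mul_le_mul (ds_norm_le sg τ) (ds_norm_le s0 τ)
      (by positivity) (tsum_nonneg fun n => norm_nonneg _)
  rw [integral_add i1 i2] at h2
  have h3 := first_part f σ y
  have h4 := second_part hσ hf1 y
  have hnn : ∀ n : ℕ, 0 ≤ Λ n * Real.log n * wt σ n * ‖cc (u0 f σ) (y - Real.log n)‖ := by
    intro n
    have := Real.log_natCast_nonneg n
    have := ArithmeticFunction.vonMangoldt_nonneg (n := n)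
    have := wt_nonneg σ n
    positivity
  have h5 : Summable (fun n : ℕ => Λ n * Real.log n * wt σ n * ‖cc (u0 f σ) (y - Real.log n)‖) :=
    summable_of_sum_range_le hnn hR
  have h6 : ‖∫ τ : ℝ, (ker τ : ℂ) * ((DS (ug f σ) τ * DS (u0 f σ) τ) * ee τ y)‖ ≤ R := by
    rw [← h4.tsum_eq]
    refine (tsum_of_norm_bounded h5.hasSum (fun n => ?_)).trans
      (Real.tsum_le_of_sum_range_le hnn hR)
    rw [norm_mul]
    exact mul_le_mul_of_nonneg_right (ug_norm hf1 n) (norm_nonneg _)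
  have h7 : ‖(y ^ 2 : ℝ) * cc (u0 f σ) y‖ ≤ ‖cc (u2 f σ) y‖ +
      ‖cc (u2 f σ) y - (y ^ 2 : ℝ) * cc (u0 f σ) y‖ := by
    have := norm_sub_le (cc (u2 f σ) y) (cc (u2 f σ) y - (y ^ 2 : ℝ) * cc (u0 f σ) y)
    simpa using this
  rw [norm_mul, Complex.norm_real, Real.norm_of_nonneg (by positivity)] at h7
  have h8 := norm_add_le
    (∫ τ : ℝ, (ker τ : ℂ) * ((DS (u0 f σ) τ * DS (ud f σ) τ ^ 2) * ee τ y))
    (∫ τ : ℝ, (ker τ : ℂ) * ((DS (ug f σ) τ * DS (u0 f σ) τ) * ee τ y))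
  rw [h2] at h8
  linarith

/-- bound for the sum over `n` in the recursion -/
theorem rec_sum (hσ : 0 < σ) (hσ1 : σ ≤ 1) (hf1 : ∀ n, ‖f n‖ ≤ 1) {y dl S : ℝ} (hy : 1 ≤ y)
    (hdl : 0 < dl) (hdl1 : dl ≤ 1) (hS : ∀ z, dl * y ≤ z → z ≤ y → ‖cc (u0 f σ) z‖ ≤ S) (N : ℕ) :
    ∑ n ∈ range N, Λ n * Real.log n * wt σ n * ‖cc (u0 f σ) (y - Real.log n)‖ ≤
      (3 / 4 * y ^ 2 + 11 * y) * S + 9 * ((y + 1) * (dl * y + 9)) := by
  have hS0 : 0 ≤ S := (norm_nonneg _).trans (hS y (by nlinarith) le_rfl)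
  set a := Real.exp ((1 - dl) * y) with ha
  set b := Real.exp (y + 1) with hb
  have ha1 : 1 ≤ a := by rw [ha]; apply Real.one_le_exp; nlinarith
  have hab : a ≤ b := by rw [ha, hb]; apply Real.exp_le_exp.2; nlinarith
  set F : ℕ → ℝ := fun n => Λ n * Real.log n * wt σ n * ‖cc (u0 f σ) (y - Real.log n)‖ with hF
  have hnn : ∀ n : ℕ, 0 ≤ F n := by
    intro n
    have := Real.log_natCast_nonneg n
    have := ArithmeticFunction.vonMangoldt_nonneg (n := n)
    have := wt_nonneg σ n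
    simp only [hF]
    positivity
  have hwt : ∀ n : ℕ, 1 ≤ n → Λ n * Real.log n * wt σ n ≤ Λ n * Real.log n / n := by
    intro n hn
    have h1 := Real.log_natCast_nonneg n
    have h2 := ArithmeticFunction.vonMangoldt_nonneg (n := n)
    have h3 := wt_le_inv hσ.le hn
    calc Λ n * Real.log n * wt σ n ≤ Λ n * Real.log n * (1 / n) :=
          mul_le_mul_of_nonneg_left h3 (by positivity)
      _ = Λ n * Real.log n / n := by ring
  have hsplit : ∑ n ∈ range N, F n ≤ ∑ n ∈ Icc 1 ⌊a⌋₊, F n + ∑ n ∈ Ioc ⌊a⌋₊ ⌊b⌋₊, F n := by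
    rw [← Finset.sum_union]
    · have h1 : ∑ n ∈ range N, F n = ∑ n ∈ (range N).filter (fun n => n ∈ Icc 1 ⌊a⌋₊ ∪ Ioc ⌊a⌋₊ ⌊b⌋₊), F n := by
        symm
        apply Finset.sum_filter_of_ne
        intro n _ hne
        by_contra hcon
        apply hne
        simp only [mem_union, mem_Icc, mem_Ioc, not_or, not_and, not_le] at hcon
        have h2 : ⌊a⌋₊ ≤ ⌊b⌋₊ := Nat.floor_le_floor hab
        rcases Nat.eq_zero_or_pos n with h0 | h0
        · subst h0; simp [hF]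
        · have h3 : ⌊b⌋₊ < n := by
            have := hcon.1 h0
            have := hcon.2 this
            omega
          have h4 : b < n := (Nat.floor_lt (by positivity)).1 h3
          have h5 : y + 1 < Real.log n := by
            rw [Real.lt_log_iff_exp_lt (by exact_mod_cast h0)]
            exact h4
          simp only [hF]
          rw [cc_eq_zero (by linarith), norm_zero, mul_zero]
      rw [h1]
      apply Finset.sum_le_sum_of_subset_of_nonneg
      · intro n hn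
        rw [mem_filter] at hn
        exact hn.2
      · intro n _ _
        exact hnn n
    · rw [Finset.disjoint_left]
      intro n h1 h2
      simp only [mem_Icc, mem_Ioc] at h1 h2
      omega
  have h1 : ∑ n ∈ Icc 1 ⌊a⌋₊, F n ≤ (3 / 4 * y ^ 2 + 11 * y) * S := by
    calc ∑ n ∈ Icc 1 ⌊a⌋₊, F n ≤ ∑ n ∈ Icc 1 ⌊a⌋₊, (Λ n * Real.log n / n) * S := by
          apply Finset.sum_le_sum
          intro n hn
          rw [mem_Icc] at hn
          have hn0 : (0 : ℝ) < n := by exact_mod_cast hn.1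
          have h2 : (n : ℝ) ≤ a := (Nat.le_floor_iff (by positivity)).1 hn.2
          have h3 : Real.log n ≤ (1 - dl) * y := by
            rw [Real.log_le_iff_le_exp hn0]
            exact h2
          have h4 : 0 ≤ Real.log n := Real.log_natCast_nonneg n
          apply mul_le_mul (hwt n hn.1) (hS _ (by nlinarith) (by linarith)) (norm_nonneg _)
          have := ArithmeticFunction.vonMangoldt_nonneg (n := n)
          positivity
      _ = (∑ n ∈ Icc 1 ⌊a⌋₊, Λ n * Real.log n / n) * S := by rw [Finset.sum_mul]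
      _ ≤ (3 / 4 * y ^ 2 + 11 * y) * S := by
          apply mul_le_mul_of_nonneg_right _ hS0
          refine (log_mertens ha1).trans ?_
          rw [ha, Real.log_exp]
          have h5 : (1 - dl) * y ≤ y := by nlinarith
          have h6 : 0 ≤ (1 - dl) * y := mul_nonneg (by linarith) (by linarith)
          nlinarith
  have h2 : ∑ n ∈ Ioc ⌊a⌋₊ ⌊b⌋₊, F n ≤ 9 * ((y + 1) * (dl * y + 9)) := by
    calc ∑ n ∈ Ioc ⌊a⌋₊ ⌊b⌋₊, F n ≤ ∑ n ∈ Ioc ⌊a⌋₊ ⌊b⌋₊, (Λ n * Real.log n / n) * 9 := by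
          apply Finset.sum_le_sum
          intro n hn
          rw [mem_Ioc] at hn
          have hn1 : 1 ≤ n := by omega
          apply mul_le_mul (hwt n hn1) (cc_le_nine hσ hσ1 hf1 _) (norm_nonneg _)
          have := ArithmeticFunction.vonMangoldt_nonneg (n := n)
          have := Real.log_natCast_nonneg n
          positivity
      _ = 9 * (∑ n ∈ Ioc ⌊a⌋₊ ⌊b⌋₊, Λ n * Real.log n / n) := by rw [← Finset.sum_mul, mul_comm]
      _ ≤ 9 * ((y + 1) * (dl * y + 9)) := by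
          apply mul_le_mul_of_nonneg_left _ (by norm_num)
          refine (log_mertens_diff ha1 hab).trans (le_of_eq ?_)
          rw [ha, hb, Real.log_exp, Real.log_exp]
          ring
  linarith

/-- one step of the iteration -/
theorem rec_step (hσ : 0 < σ) (hσ1 : σ ≤ 1) (hf : ∀ m n, m ≠ 0 → n ≠ 0 → f (m * n) = f m * f n)
    (hf1 : ∀ n, ‖f n‖ ≤ 1) {y dl S E κ : ℝ}
    (hE : ∫ τ : ℝ, ker τ * (‖DS (u0 f σ) τ‖ * ‖DS (ud f σ) τ‖ ^ 2) ≤ E / σ ^ 2)
    (hκ : 0 < κ) (hκ2 : 88 ≤ κ / σ) (hκy : κ / σ ≤ y)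
    (hdl : 0 < dl) (hdl1 : dl ≤ 1) (hS : ∀ z, dl * y ≤ z → z ≤ y → ‖cc (u0 f σ) z‖ ≤ S) :
    ‖cc (u0 f σ) y‖ ≤ E / κ ^ 2 + 7 / 8 * S + 18 * dl + 200 * σ / κ := by
  have hy : 88 ≤ y := hκ2.trans hκy
  have hS0 : 0 ≤ S := (norm_nonneg _).trans (hS y (by nlinarith) le_rfl)
  have hE0 : 0 ≤ E := by
    have h1 : 0 ≤ E / σ ^ 2 := le_trans (integral_nonneg fun τ => by
      have := ker_nonneg τ
      positivity) hE
    have h2 : 0 < σ ^ 2 := by positivity
    rw [div_nonneg_iff] at h1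
    rcases h1 with h | h
    · exact h.1
    · linarith [h.2]
  have h := rec_ineq hσ hf hf1 (y := y) (by linarith)
    (rec_sum hσ hσ1 hf1 (by linarith) hdl hdl1 hS)
  have hy2 : 0 < y ^ 2 := by positivity
  have h1 : E / σ ^ 2 ≤ y ^ 2 * (E / κ ^ 2) := by
    have h2 : κ ^ 2 ≤ y ^ 2 * σ ^ 2 := by
      rw [← mul_pow]
      apply pow_le_pow_left₀ hκ.le
      rwa [div_le_iff₀ hσ] at hκy
    calc E / σ ^ 2 = (E / (κ ^ 2 * σ ^ 2)) * κ ^ 2 := by field_simp
      _ ≤ (E / (κ ^ 2 * σ ^ 2)) * (y ^ 2 * σ ^ 2) :=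
          mul_le_mul_of_nonneg_left h2 (by positivity)
      _ = y ^ 2 * (E / κ ^ 2) := by field_simp
  have h3 : y ≤ y ^ 2 * (σ / κ) := by
    have h4 : 1 ≤ y * (σ / κ) := by
      rw [div_le_iff₀ hσ] at hκy
      rw [← mul_div_assoc, le_div_iff₀ hκ, one_mul]
      exact hκy
    nlinarith
  have h5 : 11 * y ≤ (1 / 8) * y ^ 2 := by nlinarith
  have h6 : (3 / 4 * y ^ 2 + 11 * y) * S ≤ (7 / 8 * y ^ 2) * S :=
    mul_le_mul_of_nonneg_right (by linarith) hS0
  have h7 : 9 * ((y + 1) * (dl * y + 9)) + 9 * (2 * y + 1) ≤ 18 * dl * y ^ 2 + 200 * y := by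
    nlinarith [mul_nonneg hdl.le (by nlinarith : 0 ≤ y ^ 2 - y)]
  have h8 : y ^ 2 * ‖cc (u0 f σ) y‖ ≤
      y ^ 2 * (E / κ ^ 2 + 7 / 8 * S + 18 * dl + 200 * σ / κ) := by
    have e : y ^ 2 * (E / κ ^ 2 + 7 / 8 * S + 18 * dl + 200 * σ / κ) =
      y ^ 2 * (E / κ ^ 2) + (7 / 8 * y ^ 2) * S + 18 * dl * y ^ 2 + 200 * (y ^ 2 * (σ / κ)) := by ring
    rw [e]
    linarith
  exact le_of_mul_le_mul_left h8 hy2

end Pool.Agent.H22.MR
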