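import Pool.Agent.H22.MR.Cheb
import Pool.Agent.H24.MR.InterfaceMR

/-! Window bounds for the module [SB] (helper22). -/

set_option autoImplicit false

open Finset Real
open scoped ArithmeticFunction.vonMangoldt

namespace Pool.Agent.H22.MR
open Pool.Agent.H24.MR (tent)

/-- `n^{-1-σ}` -/
noncomputable def wt (σ : ℝ) (n : ℕ) : ℝ := (n : ℝ) ^ (-(1 + σ))

theorem wt_nonneg (σ : ℝ) (n : ℕ) : 0 ≤ wt σ n := Real.rpow_nonneg (Nat.cast_nonneg n) _

theorem wt_zero {σ : ℝ} (hσ : 0 < σ) : wt σ 0 = 0 := by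
  unfold wt
  rw [Nat.cast_zero, Real.zero_rpow (by linarith)]

theorem wt_le_inv {σ : ℝ} (hσ : 0 ≤ σ) {n : ℕ} (hn : 1 ≤ n) : wt σ n ≤ 1 / n := by
  unfold wt
  rw [one_div, ← Real.rpow_neg_one]
  apply Real.rpow_le_rpow_of_exponent_le (by exact_mod_cast hn)
  linarith

theorem tent_nonneg (u : ℝ) : 0 ≤ tent u := le_max_left _ _

theorem tent_le_one (u : ℝ) : tent u ≤ 1 := by
  unfold tent
  apply max_le (by norm_num)
  have := abs_nonneg u
  linarith

theorem tent_eq_zero {u : ℝ} (hu : 1 ≤ |u|) : tent u = 0 := by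
  unfold tent
  apply max_eq_left
  linarith

/-- on the support of the tent -/
theorem tent_supp {y : ℝ} (hy : 0 < y) {n : ℕ} (hn : 1 ≤ n) (h : tent (Real.log n - Real.log y) ≠ 0) :
    (n : ℝ) ≤ Real.exp 1 * y ∧ y ≤ Real.exp 1 * n := by
  have hn0 : (0 : ℝ) < n := by exact_mod_cast hn
  have h1 : |Real.log n - Real.log y| < 1 := by
    by_contra hcon
    push Not at hcon
    exact h (tent_eq_zero hcon)
  rw [abs_lt] at h1
  constructor
  · have h2 : Real.log n ≤ Real.log (Real.exp 1 * y) := by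
      rw [Real.log_mul (Real.exp_pos 1).ne' hy.ne', Real.log_exp]; linarith
    exact (Real.log_le_log_iff hn0 (by positivity)).1 h2
  · have h2 : Real.log y ≤ Real.log (Real.exp 1 * n) := by
      rw [Real.log_mul (Real.exp_pos 1).ne' hn0.ne', Real.log_exp]; linarith
    exact (Real.log_le_log_iff hy (by positivity)).1 h2

theorem wt_tent_le {σ : ℝ} (hσ : 0 < σ) {y : ℝ} (hy : 0 < y) (n : ℕ) :
    wt σ n * tent (Real.log n - Real.log y) ≤
      if n ∈ Icc 1 ⌊Real.exp 1 * y⌋₊ then Real.exp 1 / y else 0 := by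
  rcases Nat.eq_zero_or_pos n with h0 | h0
  · subst h0
    rw [wt_zero hσ]
    simp
  by_cases ht : tent (Real.log n - Real.log y) = 0
  · rw [ht, mul_zero]
    split_ifs <;> positivity
  obtain ⟨h1, h2⟩ := tent_supp hy h0 ht
  have hmem : n ∈ Icc 1 ⌊Real.exp 1 * y⌋₊ := by
    rw [mem_Icc]
    exact ⟨h0, (Nat.le_floor_iff (by positivity)).2 h1⟩
  rw [if_pos hmem]
  have hn0 : (0 : ℝ) < n := by exact_mod_cast h0
  calc wt σ n * tent (Real.log n - Real.log y) ≤ (1 / n) * 1 :=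
        mul_le_mul (wt_le_inv hσ.le h0) (tent_le_one _) (tent_nonneg _) (by positivity)
    _ = 1 / n := mul_one _
    _ ≤ Real.exp 1 / y := by
        rw [div_le_div_iff₀ hn0 hy]
        linarith

/-- window bound for a nonnegative sequence with a Chebyshev bound -/
theorem window_bound {σ : ℝ} (hσ : 0 < σ) {y : ℝ} (hy : 0 < y) (g : ℕ → ℝ) (hg : ∀ n, 0 ≤ g n)
    {C : ℝ} (hC : ∀ x : ℝ, 0 ≤ x → ∑ n ∈ Icc 1 ⌊x⌋₊, g n ≤ C * x) :
    Summable (fun n => g n * wt σ n * tent (Real.log n - Real.log y)) ∧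
    ∑' n, g n * wt σ n * tent (Real.log n - Real.log y) ≤ 9 * C := by
  have hC0 : 0 ≤ C := by
    have := hC 1 zero_le_one
    rw [mul_one] at this
    exact (Finset.sum_nonneg fun n _ => hg n).trans this
  have hzero : ∀ n ∉ Icc 1 ⌊Real.exp 1 * y⌋₊,
      g n * wt σ n * tent (Real.log n - Real.log y) = 0 := by
    intro n hn
    have h1 := wt_tent_le hσ hy n
    rw [if_neg hn] at h1
    have h2 : 0 ≤ wt σ n * tent (Real.log n - Real.log y) :=
      mul_nonneg (wt_nonneg _ _) (tent_nonneg _)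
    have h3 : wt σ n * tent (Real.log n - Real.log y) = 0 := le_antisymm h1 h2
    rw [mul_assoc, h3, mul_zero]
  refine ⟨summable_of_ne_finset_zero hzero, ?_⟩
  rw [tsum_eq_sum hzero]
  calc ∑ n ∈ Icc 1 ⌊Real.exp 1 * y⌋₊, g n * wt σ n * tent (Real.log n - Real.log y)
      ≤ ∑ n ∈ Icc 1 ⌊Real.exp 1 * y⌋₊, g n * (Real.exp 1 / y) := by
        apply Finset.sum_le_sum
        intro n hn
        have h1 := wt_tent_le hσ hy n
        rw [if_pos hn] at h1
        rw [mul_assoc]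
        exact mul_le_mul_of_nonneg_left h1 (hg n)
    _ = (∑ n ∈ Icc 1 ⌊Real.exp 1 * y⌋₊, g n) * (Real.exp 1 / y) := by rw [Finset.sum_mul]
    _ ≤ (C * (Real.exp 1 * y)) * (Real.exp 1 / y) :=
        mul_le_mul_of_nonneg_right (hC _ (by positivity)) (by positivity)
    _ = C * (Real.exp 1 * Real.exp 1) := by field_simp
    _ ≤ C * 9 := by
        apply mul_le_mul_of_nonneg_left _ hC0
        have h1 := exp1_lt3
        have h2 := Real.exp_pos 1
        nlinarith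
    _ = 9 * C := by ring

theorem window_one {σ : ℝ} (hσ : 0 < σ) {y : ℝ} (hy : 0 < y) :
    Summable (fun n : ℕ => wt σ n * tent (Real.log n - Real.log y)) ∧
    ∑' n : ℕ, wt σ n * tent (Real.log n - Real.log y) ≤ 9 := by
  have h := window_bound hσ hy (fun _ => 1) (fun _ => zero_le_one) (C := 1) (by
    intro x hx
    simp only [sum_const, Nat.card_Icc, add_tsub_cancel_right, nsmul_eq_mul, mul_one, one_mul]
    exact Nat.floor_le hx)
  simpa using h

theorem window_vM {σ : ℝ} (hσ : 0 < σ) {y : ℝ} (hy : 0 < y) :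
    Summable (fun n : ℕ => Λ n * wt σ n * tent (Real.log n - Real.log y)) ∧
    ∑' n : ℕ, Λ n * wt σ n * tent (Real.log n - Real.log y) ≤ 54 := by
  have h := window_bound hσ hy (fun n => Λ n) (fun _ => ArithmeticFunction.vonMangoldt_nonneg)
    (C := 6) psi_bound
  refine ⟨h.1, h.2.trans (by norm_num)⟩

/-- geometric series bound -/
theorem geom_bound {σ : ℝ} (hσ : 0 < σ) (hσ1 : σ ≤ 1) (K : ℕ) :
    ∑ k ∈ range K, Real.exp (-(k * σ)) ≤ 2 / σ := by
  set r := Real.exp (-σ) with hr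
  have hr0 : 0 < r := Real.exp_pos _
  have hr1 : r ≤ 1 - σ / 2 := by
    have h1 : 1 + σ ≤ Real.exp σ := by have := Real.add_one_le_exp σ; linarith
    have h2 : r * Real.exp σ = 1 := by rw [hr, ← Real.exp_add]; simp
    have h3 : r * (1 + σ) ≤ 1 := by
      calc r * (1 + σ) ≤ r * Real.exp σ := mul_le_mul_of_nonneg_left h1 hr0.le
        _ = 1 := h2
    nlinarith
  have e : ∀ k ∈ range K, Real.exp (-(k * σ)) = r ^ k := by
    intro k _
    rw [hr, ← Real.exp_nat_mul]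
    ring_nf
  rw [Finset.sum_congr rfl e]
  have h1 : (∑ k ∈ range K, r ^ k) * (1 - r) = 1 - r ^ K := by
    have := geom_sum_mul r K
    linarith
  have h2 : (∑ k ∈ range K, r ^ k) * (1 - r) ≤ 1 := by
    rw [h1]; have := pow_pos hr0 K; linarith
  have h3 : 0 ≤ ∑ k ∈ range K, r ^ k := Finset.sum_nonneg fun k _ => (pow_pos hr0 k).le
  rw [le_div_iff₀ hσ]
  nlinarith

theorem g_block {σ : ℝ} (hσ : 0 < σ) (g : ℕ → ℝ) (hg : ∀ n, 0 ≤ g n)
    {C : ℝ} (hC0 : 0 ≤ C) (hC : ∀ x : ℝ, 0 ≤ x → ∑ n ∈ Icc 1 ⌊x⌋₊, g n ≤ C * x) (N k : ℕ) :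
    ∑ n ∈ (range N).filter (fun n : ℕ => ⌊Real.log n⌋₊ = k), g n * wt σ n
      ≤ 3 * C * Real.exp (-(k * σ)) := by
  set S : Finset ℕ := (range N).filter (fun n : ℕ => ⌊Real.log n⌋₊ = k) with hS
  set I : Finset ℕ := Icc 1 ⌊Real.exp ((k : ℝ) + 1)⌋₊ with hI
  have hsub : ∀ n ∈ S, n ≠ 0 → n ∈ I ∧ wt σ n ≤ Real.exp (-(k * (1 + σ))) := by
    intro n hn h0
    rw [hS, mem_filter] at hn
    have hpos : 1 ≤ n := Nat.pos_of_ne_zero h0
    have hn0 : (0 : ℝ) < n := by exact_mod_cast hpos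
    constructor
    · rw [hI, mem_Icc]
      refine ⟨hpos, ?_⟩
      apply Nat.le_floor
      have h3 : Real.log n < k + 1 := by
        have := Nat.lt_floor_add_one (Real.log n)
        rw [hn.2] at this
        exact this
      exact ((Real.log_lt_iff_lt_exp hn0).1 h3).le
    · unfold wt
      rw [Real.rpow_def_of_pos hn0]
      apply Real.exp_le_exp.2
      have h5 : (k : ℝ) ≤ Real.log n := by
        rw [← hn.2]
        exact Nat.floor_le (Real.log_nonneg (by exact_mod_cast hpos))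
      nlinarith
  calc ∑ n ∈ S, g n * wt σ n
      ≤ ∑ n ∈ S.filter (fun n => n ≠ 0), g n * Real.exp (-(k * (1 + σ))) := by
        have e : ∑ n ∈ S, g n * wt σ n = ∑ n ∈ S.filter (fun n => n ≠ 0), g n * wt σ n := by
          symm
          apply Finset.sum_filter_of_ne
          intro n _ hne h
          subst h
          apply hne
          rw [wt_zero hσ, mul_zero]
        rw [e]
        apply Finset.sum_le_sum
        intro n hn
        rw [mem_filter] at hn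
        exact mul_le_mul_of_nonneg_left (hsub n hn.1 hn.2).2 (hg n)
    _ ≤ ∑ n ∈ I, g n * Real.exp (-(k * (1 + σ))) := by
        apply Finset.sum_le_sum_of_subset_of_nonneg
        · intro n hn
          rw [mem_filter] at hn
          exact (hsub n hn.1 hn.2).1
        · intro n _ _
          exact mul_nonneg (hg n) (Real.exp_pos _).le
    _ = (∑ n ∈ I, g n) * Real.exp (-(k * (1 + σ))) := by
        rw [Finset.sum_mul]
    _ ≤ (C * Real.exp ((k : ℝ) + 1)) * Real.exp (-(k * (1 + σ))) :=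
        mul_le_mul_of_nonneg_right (hC _ (Real.exp_pos _).le) (Real.exp_pos _).le
    _ = C * Real.exp 1 * Real.exp (-(k * σ)) := by
        rw [mul_assoc, mul_assoc, ← Real.exp_add, ← Real.exp_add]
        ring_nf
    _ ≤ 3 * C * Real.exp (-(k * σ)) := by
        apply mul_le_mul_of_nonneg_right _ (Real.exp_pos _).le
        have := exp1_lt3
        nlinarith

theorem g_sum_le {σ : ℝ} (hσ : 0 < σ) (hσ1 : σ ≤ 1) (g : ℕ → ℝ) (hg : ∀ n, 0 ≤ g n)
    {C : ℝ} (hC0 : 0 ≤ C) (hC : ∀ x : ℝ, 0 ≤ x → ∑ n ∈ Icc 1 ⌊x⌋₊, g n ≤ C * x) (N : ℕ) :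
    ∑ n ∈ range N, g n * wt σ n ≤ 6 * C / σ := by
  have hmap : ∀ n ∈ range N, ⌊Real.log n⌋₊ ∈ range (N + 1) := by
    intro n hn
    rw [mem_range] at hn ⊢
    have h1 : Real.log n ≤ n := by
      rcases Nat.eq_zero_or_pos n with h | h
      · subst h; simp
      · have := Real.log_le_sub_one_of_pos (show (0 : ℝ) < n by exact_mod_cast h)
        linarith
    have h2 : ⌊Real.log n⌋₊ ≤ n := by
      have := Nat.floor_le_floor h1
      rwa [Nat.floor_natCast] at this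
    omega
  rw [← Finset.sum_fiberwise_of_maps_to hmap]
  calc _ ≤ ∑ k ∈ range (N + 1), 3 * C * Real.exp (-(k * σ)) :=
        Finset.sum_le_sum fun k _ => g_block hσ g hg hC0 hC N k
    _ = 3 * C * ∑ k ∈ range (N + 1), Real.exp (-(k * σ)) := by rw [Finset.mul_sum]
    _ ≤ 3 * C * (2 / σ) := mul_le_mul_of_nonneg_left (geom_bound hσ hσ1 _) (by positivity)
    _ = 6 * C / σ := by ring

theorem g_tsum {σ : ℝ} (hσ : 0 < σ) (hσ1 : σ ≤ 1) (g : ℕ → ℝ) (hg : ∀ n, 0 ≤ g n)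
    {C : ℝ} (hC0 : 0 ≤ C) (hC : ∀ x : ℝ, 0 ≤ x → ∑ n ∈ Icc 1 ⌊x⌋₊, g n ≤ C * x) :
    Summable (fun n : ℕ => g n * wt σ n) ∧ ∑' n : ℕ, g n * wt σ n ≤ 6 * C / σ := by
  have h0 : ∀ n : ℕ, 0 ≤ g n * wt σ n := fun n => mul_nonneg (hg n) (wt_nonneg _ _)
  exact ⟨summable_of_sum_range_le h0 (g_sum_le hσ hσ1 g hg hC0 hC),
    Real.tsum_le_of_sum_range_le h0 (g_sum_le hσ hσ1 g hg hC0 hC)⟩

theorem vM_tsum {σ : ℝ} (hσ : 0 < σ) (hσ1 : σ ≤ 1) :
    Summable (fun n : ℕ => Λ n * wt σ n) ∧ ∑' n : ℕ, Λ n * wt σ n ≤ 36 / σ := by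
  have h := g_tsum hσ hσ1 (fun n => Λ n) (fun _ => ArithmeticFunction.vonMangoldt_nonneg)
    (C := 6) (by norm_num) psi_bound
  refine ⟨h.1, h.2.trans (le_of_eq (by norm_num))⟩

theorem one_tsum {σ : ℝ} (hσ : 0 < σ) (hσ1 : σ ≤ 1) :
    Summable (fun n : ℕ => wt σ n) ∧ ∑' n : ℕ, wt σ n ≤ 6 / σ := by
  have h := g_tsum hσ hσ1 (fun _ => 1) (fun _ => zero_le_one) (C := 1) zero_le_one (by
    intro x hx
    simp only [sum_const, Nat.card_Icc, add_tsub_cancel_right, nsmul_eq_mul, mul_one, one_mul]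
    exact Nat.floor_le hx)
  simpa using h

end Pool.Agent.H22.MR
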